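import Pool.Agent.H2.TW.ZY

/-!
# The element of a matrix in the exterior algebra (module ZA)

`ZZ e M = ∏_i (1 + yy e i (M i))` (in the order of the rows).
-/

namespace Pool.Agent.H2.TW

variable {F : Type*} [Field F] {α : Type*} [LinearOrder α] [Fintype α] {m : ℕ}

/-- `∏_i (1 + yy e i (M i))` -/
noncomputable def ZZ (e : Fin m ⊕ Fin m ≃ α) (M : Matrix (Fin m) (Fin m) F) : Ex F α :=
  ((List.finRange m).map fun i => 1 + yy e i (M i)).prod

private theorem prod_map_mul_of_commute {R ι : Type*} [Monoid R] (f g : ι → R)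
    (h : ∀ i j, Commute (g i) (f j)) (l : List ι) :
    (l.map fun i => f i * g i).prod = (l.map f).prod * (l.map g).prod := by
  induction l with
  | nil => simp
  | cons i l ih =>
    rw [List.map_cons, List.prod_cons, ih, List.map_cons, List.prod_cons, List.map_cons,
      List.prod_cons]
    have hc : Commute (g i) (l.map f).prod := by
      apply Commute.list_prod_right
      intro x hx
      obtain ⟨j, -, rfl⟩ := List.mem_map.1 hx
      exact h i j
    rw [mul_assoc, ← mul_assoc (g i), hc.eq]
    simp only [mul_assoc]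

private theorem prod_map_single {R ι : Type*} [Monoid R] (f : ι → R) (i : ι)
    (hf : ∀ k, k ≠ i → f k = 1) (l : List ι) (hl : l.Nodup) (hi : i ∈ l) :
    (l.map f).prod = f i := by
  induction l with
  | nil => simp at hi
  | cons a l ih =>
    rw [List.map_cons, List.prod_cons]
    rw [List.nodup_cons] at hl
    by_cases ha : a = i
    · subst ha
      have h1 : (l.map f).prod = 1 := by
        apply List.prod_eq_one
        intro x hx
        obtain ⟨k, hk, rfl⟩ := List.mem_map.1 hx
        exact hf k (fun h => hl.1 (h ▸ hk))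
      rw [h1, mul_one]
    · have hi' : i ∈ l := by
        rcases List.mem_cons.1 hi with h | h
        · exact absurd h.symm ha
        · exact h
      rw [hf a ha, one_mul, ih hl.2 hi']

/-- `List.prod` of products of commuting elements; `(1 + yy i u) * (1 + yy i v) = 1 + yy i (u + v)` -/
theorem ZZ_add (e : Fin m ⊕ Fin m ≃ α) (M N : Matrix (Fin m) (Fin m) F) :
    ZZ e (M + N) = ZZ e M * ZZ e N := by
  unfold ZZ
  rw [← prod_map_mul_of_commute]
  · congr 1
    apply List.map_congr_left
    intro i _
    have h : (M + N) i = M i + N i := rfl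
    rw [h, yy_add]
    have h2 := yy_mul_same e i (M i) (N i)
    rw [mul_add, mul_one, add_mul, one_mul, h2, add_zero, add_assoc]
  · intro i j
    have h := yy_comm e i j (N i) (M j)
    exact (Commute.one_left _).add_left ((Commute.one_right _).add_right h)

theorem ZZ_zero (e : Fin m ⊕ Fin m ≃ α) : ZZ e (0 : Matrix (Fin m) (Fin m) F) = 1 := by
  unfold ZZ
  apply List.prod_eq_one
  intro x hx
  obtain ⟨i, -, rfl⟩ := List.mem_map.1 hx
  have h : (0 : Matrix (Fin m) (Fin m) F) i = 0 := rfl
  show 1 + yy e i ((0 : Matrix (Fin m) (Fin m) F) i) = 1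
  rw [h, yy_zero, add_zero]

theorem ZZ_single (e : Fin m ⊕ Fin m ≃ α) (i j : Fin m) (c : F) :
    ZZ e (Matrix.single i j c) = 1 + c • (ExteriorAlgebra.ι F (Pi.single (e (Sum.inl i)) (1 : F)) *
      ExteriorAlgebra.ι F (Pi.single (e (Sum.inr j)) (1 : F))) := by
  unfold ZZ
  rw [prod_map_single (fun k => 1 + yy e k ((Matrix.single i j c : Matrix (Fin m) (Fin m) F) k)) i
    ?_ _ (List.nodup_finRange m) (List.mem_finRange i)]
  · have h : (Matrix.single i j c : Matrix (Fin m) (Fin m) F) i = Pi.single j c := by
      funext k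
      by_cases hk : k = j
      · subst hk
        simp
      · rw [Matrix.single_apply, Pi.single_eq_of_ne hk, if_neg]
        rintro ⟨-, h⟩
        exact hk h.symm
    rw [h, yy_single]
  · intro k hk
    have h : (Matrix.single i j c : Matrix (Fin m) (Fin m) F) k = 0 := by
      funext l
      rw [Matrix.single_apply, if_neg]
      · rfl
      · rintro ⟨h, -⟩
        exact hk h.symm
    rw [h, yy_zero, add_zero]

theorem ZZ_mem (e : Fin m ⊕ Fin m ≃ α) (M : Matrix (Fin m) (Fin m) F) (V : Finset α)
    (hM : ∀ i j, M i j ≠ 0 → e (Sum.inl i) ∈ V ∧ e (Sum.inr j) ∈ V) : ZZ e M ∈ Win F ∅ V := by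
  have hkey : ∀ l : List (Fin m), (l.map fun i => 1 + yy e i (M i)).prod ∈ Win F ∅ V := by
    intro l
    induction l with
    | nil => simpa using one_mem_win (F := F) V
    | cons i l ih =>
      rw [List.map_cons, List.prod_cons]
      have h1 : (1 + yy e i (M i) : Ex F α) ∈ Win F ∅ V :=
        Submodule.add_mem _ (one_mem_win V) (yy_mem e i (M i) V (fun j hj => hM i j hj))
      have h2 := win_mul h1 ih
      rwa [Finset.union_self] at h2
  exact hkey _

end Pool.Agent.H2.TW
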