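import Pool.Agent.H2.TW.FqRz
import Pool.Agent.H2.TW.ZA

/-!
# Multiplication by the entries of a bag (module AsmE)
-/

namespace Pool.Agent.H2.TW

open Pool.Agent.H2.RK Matrix

variable {F : Type*} {ι : Type*} [Field F] [DecidableEq ι] {α : Type*} [LinearOrder α] [Fintype α]
  {m : ℕ}

/-- the matrix of the entries in `E` at the point `x`, all other entries are `0` -/
noncomputable def evE (A : Matrix (Fin m) (Fin m) (Fq F ι)) (E : Finset (Fin m × Fin m))
    (x : ι → F) : Matrix (Fin m) (Fin m) F :=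
  Matrix.of fun i j => if (i, j) ∈ E then (A i j).eval x else 0

theorem evE_empty (A : Matrix (Fin m) (Fin m) (Fq F ι)) (x : ι → F) : evE A ∅ x = 0 := by
  ext i j
  simp [evE]

theorem evE_union (A : Matrix (Fin m) (Fin m) (Fq F ι)) {E E' : Finset (Fin m × Fin m)}
    (h : Disjoint E E') (x : ι → F) : evE A (E ∪ E') x = evE A E x + evE A E' x := by
  ext i j
  simp only [evE, Matrix.of_apply, Matrix.add_apply, Finset.mem_union]
  by_cases h1 : (i, j) ∈ E
  · have h2 : (i, j) ∉ E' := Finset.disjoint_left.mp h h1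
    simp [h1, h2]
  · by_cases h2 : (i, j) ∈ E'
    · simp [h1, h2]
    · simp [h1, h2]

theorem evE_singleton (A : Matrix (Fin m) (Fin m) (Fq F ι)) (i j : Fin m) (x : ι → F) :
    evE A {(i, j)} x = Matrix.single i j ((A i j).eval x) := by
  ext i' j'
  simp only [evE, Matrix.of_apply, Matrix.single_apply, Finset.mem_singleton, Prod.mk.injEq]
  by_cases h : i' = i ∧ j' = j
  · rw [if_pos h, if_pos ⟨h.1.symm, h.2.symm⟩, h.1, h.2]
  · rw [if_neg h, if_neg fun h' => h ⟨h'.1.symm, h'.2.symm⟩]

/-- multiplication by the factors of the entries in `E`, all in the bag `B`; induction on `E` with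
`ZZ_add`, `ZZ_single`, `prj_mul` (with `A₁ = ∅`, `V₁ = B`, `A₂ = A`, `V₂ = V`), `Rz.node` for the
bilinear map `(a, b), v ↦ prj (a • v + b • (ψ̄_i * ψ_j * v))` -/
theorem rz_entries {W δ : ℕ} (e : Fin m ⊕ Fin m ≃ α) (A : Matrix (Fin m) (Fin m) (Fq F ι))
    (hA : ∀ i j, (A i j).DegLe δ) (hW : 2 ≤ W) (B A₀ V : Finset α) (hB : B ⊆ V)
    (hd : Disjoint A₀ B) (hWV : Module.finrank F (Win F A₀ V) ≤ W)
    (E : Finset (Fin m × Fin m)) (hE : ∀ q ∈ E, e (Sum.inl q.1) ∈ B ∧ e (Sum.inr q.2) ∈ B)
    {c : ι → ℕ} {N : ℕ} {s : (ι → F) → Ex F α} (hs : ∀ x, s x ∈ Win F A₀ V)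
    (h : Rz W δ (Win F A₀ V) c N s) :
    Rz W δ (Win F A₀ V) (fun i => (∑ q ∈ E, (A q.1 q.2).occ i) + c i)
      ((∑ q ∈ E, ((A q.1 q.2).size + 1)) + N)
      (fun x => prj F A₀ V (ZZ e (evE A E x) * s x)) := by
  classical
  have hZ : ∀ (E : Finset (Fin m × Fin m)),
      (∀ q ∈ E, e (Sum.inl q.1) ∈ B ∧ e (Sum.inr q.2) ∈ B) → ∀ x : ι → F,
        ZZ e (evE A E x) ∈ Win F ∅ B := by
    intro E hE x
    refine ZZ_mem e _ B ?_
    intro i j hij
    simp only [evE, Matrix.of_apply] at hij
    have h1 : (i, j) ∈ E := by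
      by_contra h1
      rw [if_neg h1] at hij
      exact hij rfl
    exact hE (i, j) h1
  induction E using Finset.induction_on with
  | empty =>
    refine h.congr (fun i => by simp) (by simp) (fun x => ?_)
    rw [evE_empty, ZZ_zero, one_mul, prj_of_mem (hs x)]
  | insert q E hq ih =>
    have hE' : ∀ q ∈ E, e (Sum.inl q.1) ∈ B ∧ e (Sum.inr q.2) ∈ B :=
      fun r hr => hE r (Finset.mem_insert_of_mem hr)
    have ih' := ih hE'
    obtain ⟨i, j⟩ := q
    have hij : e (Sum.inl i) ∈ B ∧ e (Sum.inr j) ∈ B := hE (i, j) (Finset.mem_insert_self _ _)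
    set P : Ex F α := ExteriorAlgebra.ι F (Pi.single (e (Sum.inl i)) (1 : F)) *
      ExteriorAlgebra.ι F (Pi.single (e (Sum.inr j)) (1 : F)) with hP
    -- the bilinear map
    let β : (F × F) →ₗ[F] Ex F α →ₗ[F] Ex F α :=
      LinearMap.mk₂ F (fun a v => prj F A₀ V (a.1 • v + a.2 • (P * v)))
        (by
          intro a b v
          simp only [Prod.fst_add, Prod.snd_add, add_smul, map_add]
          abel)
        (by
          intro c a v
          simp only [Prod.smul_fst, Prod.smul_snd, smul_eq_mul, mul_smul, map_add, map_smul,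
            smul_add])
        (by
          intro a v w
          simp only [mul_add, smul_add, map_add]
          abel)
        (by
          intro c a v
          simp only [map_add, map_smul, smul_add, mul_smul_comm]
          rw [smul_comm c a.1, smul_comm c a.2])
    have hn := Rz.node (W := W) (δ := δ) (U₁ := (⊤ : Submodule F (F × F)))
      (U₂ := Win F A₀ V) (U := Win F A₀ V) inferInstance (win_fd A₀ V)
      (by
        rw [finrank_top, Module.finrank_prod, Module.finrank_self]
        exact hW)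
      hWV β (fun u _ v _ => prj_mem A₀ V _) (Fq.rz hW (A i j) (hA i j)) ih'
    refine hn.congr ?_ ?_ ?_
    · intro k
      rw [Finset.sum_insert hq]
      ring
    · rw [Finset.sum_insert hq]
      simp only
      omega
    · intro x
      have h1 : insert (i, j) E = {(i, j)} ∪ E := rfl
      have hdis : Disjoint ({(i, j)} : Finset (Fin m × Fin m)) E :=
        Finset.disjoint_singleton_left.mpr hq
      rw [h1, evE_union A hdis, ZZ_add, mul_assoc]
      have hu : ZZ e (evE A {(i, j)} x) ∈ Win F ∅ B := by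
        refine hZ _ ?_ x
        intro r hr
        rw [Finset.mem_singleton] at hr
        rw [hr]
        exact hij
      have hv : ZZ e (evE A E x) * s x ∈ Win F ∅ V := by
        have h2 := win_mul (hZ E hE' x) (win_mono (Finset.empty_subset A₀) (le_refl V) (hs x))
        rwa [Finset.union_eq_right.mpr hB] at h2
      rw [prj_mul (A₁ := ∅) (V₁ := B) (A₂ := A₀) (V₂ := V) (Finset.empty_subset _)
        (Finset.disjoint_empty_left _) (Finset.Subset.refl _) hd hu hv, prj_of_mem hu,
        evE_singleton, ZZ_single]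
      show _ = prj F A₀ V ((1 : F) • prj F A₀ V (ZZ e (evE A E x) * s x) +
        (A i j).eval x • (P * prj F A₀ V (ZZ e (evE A E x) * s x)))
      rw [one_smul, ← hP, add_mul, one_mul, smul_mul_assoc]

end Pool.Agent.H2.TW
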