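import Mathlib

/-!
# Binary tree decompositions (module BTree)

`BT α`: rooted binary trees whose nodes carry bags (finite subsets of `α`).  `Valid`: the nodes whose
bags contain a given element are connected.
-/

namespace Pool.Agent.H2.TW

/-- rooted binary trees whose nodes carry bags -/
inductive BT (α : Type*)
  | leaf : Finset α → BT α
  | node : Finset α → BT α → BT α → BT α

namespace BT

variable {α β : Type*} [DecidableEq α] [DecidableEq β]

/-- the bag of the root -/
def bag : BT α → Finset α
  | .leaf B => B
  | .node B _ _ => B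

/-- all elements of bags -/
def verts : BT α → Finset α
  | .leaf B => B
  | .node B l r => B ∪ l.verts ∪ r.verts

/-- the list of bags -/
def bags : BT α → List (Finset α)
  | .leaf B => [B]
  | .node B l r => B :: (l.bags ++ r.bags)

/-- number of nodes -/
def size : BT α → ℕ
  | .leaf _ => 1
  | .node _ l r => l.size + r.size + 1

/-- for every element the nodes whose bags contain it form a connected subtree -/
def Valid : BT α → Prop
  | .leaf _ => True
  | .node B l r => l.Valid ∧ r.Valid ∧ l.verts ∩ r.verts ⊆ B ∧ l.verts ∩ B ⊆ l.bag ∧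
      r.verts ∩ B ⊆ r.bag

/-- the preimage of all bags under an injective map -/
noncomputable def comap (e : β ↪ α) : BT α → BT β
  | .leaf B => .leaf (B.preimage e e.injective.injOn)
  | .node B l r => .node (B.preimage e e.injective.injOn) (l.comap e) (r.comap e)

theorem bag_subset (D : BT α) : D.bag ⊆ D.verts := by
  cases D with
  | leaf B => exact Finset.Subset.refl _
  | node B l r =>
    intro a ha
    exact Finset.mem_union_left _ (Finset.mem_union_left _ ha)

theorem mem_verts {D : BT α} {a : α} : a ∈ D.verts ↔ ∃ B ∈ D.bags, a ∈ B := by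
  induction D with
  | leaf B => simp [verts, bags]
  | node B l r ihl ihr =>
    simp only [verts, bags, Finset.mem_union, ihl, ihr, List.mem_cons, List.mem_append]
    constructor
    · rintro ((h | ⟨C, h1, h2⟩) | ⟨C, h1, h2⟩)
      · exact ⟨B, Or.inl rfl, h⟩
      · exact ⟨C, Or.inr (Or.inl h1), h2⟩
      · exact ⟨C, Or.inr (Or.inr h1), h2⟩
    · rintro ⟨C, (rfl | h1 | h1), h2⟩
      · exact Or.inl (Or.inl h2)
      · exact Or.inl (Or.inr ⟨C, h1, h2⟩)
      · exact Or.inr ⟨C, h1, h2⟩

theorem bags_subset {D : BT α} {B : Finset α} (h : B ∈ D.bags) : B ⊆ D.verts :=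
  fun _ ha => mem_verts.2 ⟨B, h, ha⟩

theorem bag_mem_bags (D : BT α) : D.bag ∈ D.bags := by
  cases D with
  | leaf B => exact List.mem_singleton.2 rfl
  | node B l r => exact List.mem_cons.2 (Or.inl rfl)

theorem mem_verts_comap (e : β ↪ α) (D : BT α) (b : β) : b ∈ (D.comap e).verts ↔ e b ∈ D.verts := by
  induction D with
  | leaf B => simp [comap, verts]
  | node B l r ihl ihr => simp [comap, verts, ihl, ihr]

theorem mem_bag_comap (e : β ↪ α) (D : BT α) (b : β) : b ∈ (D.comap e).bag ↔ e b ∈ D.bag := by
  cases D with
  | leaf B => simp [comap, bag]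
  | node B l r => simp [comap, bag]

theorem Valid.comap (e : β ↪ α) {D : BT α} (h : D.Valid) : (D.comap e).Valid := by
  induction D with
  | leaf B => trivial
  | node B l r ihl ihr =>
    obtain ⟨h1, h2, h3, h4, h5⟩ := h
    refine ⟨ihl h1, ihr h2, ?_, ?_, ?_⟩
    · intro b hb
      rw [Finset.mem_inter, mem_verts_comap, mem_verts_comap] at hb
      rw [Finset.mem_preimage]
      exact h3 (Finset.mem_inter.2 hb)
    · intro b hb
      rw [Finset.mem_inter, mem_verts_comap, Finset.mem_preimage] at hb
      rw [mem_bag_comap]
      exact h4 (Finset.mem_inter.2 hb)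
    · intro b hb
      rw [Finset.mem_inter, mem_verts_comap, Finset.mem_preimage] at hb
      rw [mem_bag_comap]
      exact h5 (Finset.mem_inter.2 hb)

theorem size_comap (e : β ↪ α) (D : BT α) : (D.comap e).size = D.size := by
  induction D with
  | leaf B => rfl
  | node B l r ihl ihr => simp only [comap, size, ihl, ihr]

/-- the bags of the preimage are the preimages of the bags -/
theorem bags_comap (e : β ↪ α) (D : BT α) :
    (D.comap e).bags = D.bags.map fun B => B.preimage e e.injective.injOn := by
  induction D with
  | leaf B => rfl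
  | node B l r ihl ihr => simp only [comap, bags, ihl, ihr, List.map_cons, List.map_append]

theorem card_bags_comap (e : β ↪ α) {D : BT α} {w : ℕ} (h : ∀ B ∈ D.bags, B.card ≤ w) :
    ∀ B ∈ (D.comap e).bags, B.card ≤ w := by
  intro B hB
  rw [bags_comap, List.mem_map] at hB
  obtain ⟨C, hC, rfl⟩ := hB
  refine le_trans ?_ (h C hC)
  exact Finset.card_le_card_of_injOn e (fun b hb => Finset.mem_preimage.1 hb)
    (e.injective.injOn)

end BT

end Pool.Agent.H2.TW
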