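import Pool.Agent.H2.TW.AsmE
import Pool.Agent.H2.TW.BTree

/-!
# The state of a tree decomposition (module AsmT)

Induction on `D`; `E` is split into the entries inside the root bag, the entries covered by the left
subtree and the remaining ones.  Node: with `A₀ = verts \ B`, `V = verts`,
`prj (ZZ (E_l) * ZZ (E_r)) = prj (state l * state r)` by `prj_mul`, then `rz_entries`.
-/

namespace Pool.Agent.H2.TW

open Pool.Agent.H2.RK Matrix

variable {F : Type*} {ι : Type*} [Field F] [DecidableEq ι] {α : Type*} [LinearOrder α] [Fintype α]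
  {m : ℕ}

omit [DecidableEq ι] in
private theorem evE_mem_win (e : Fin m ⊕ Fin m ≃ α) (A : Matrix (Fin m) (Fin m) (Fq F ι))
    (V : Finset α) (E : Finset (Fin m × Fin m))
    (hE : ∀ q ∈ E, e (Sum.inl q.1) ∈ V ∧ e (Sum.inr q.2) ∈ V) (x : ι → F) :
    ZZ e (evE A E x) ∈ Win F ∅ V := by
  refine ZZ_mem e _ V ?_
  intro i j hij
  simp only [evE, Matrix.of_apply] at hij
  have h1 : (i, j) ∈ E := by
    by_contra h1
    rw [if_neg h1] at hij
    exact hij rfl
  exact hE (i, j) h1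

private theorem finrank_state (w : ℕ) (D : BT α) (hw : ∀ B ∈ D.bags, B.card ≤ w + 1) :
    Module.finrank F (Win F (D.verts \ D.bag) D.verts) ≤ 2 ^ (w + 1) := by
  refine (win_finrank _ _).trans (Nat.pow_le_pow_right (by norm_num) ?_)
  refine le_trans (Finset.card_le_card ?_) (hw _ (BT.bag_mem_bags D))
  intro a ha
  simp only [Finset.mem_sdiff, not_and, not_not] at ha
  exact ha.2 ha.1

theorem rz_tree {δ : ℕ} (w : ℕ) (e : Fin m ⊕ Fin m ≃ α) (A : Matrix (Fin m) (Fin m) (Fq F ι))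
    (hA : ∀ i j, (A i j).DegLe δ) (D : BT α) (hD : D.Valid) (hw : ∀ B ∈ D.bags, B.card ≤ w + 1)
    (E : Finset (Fin m × Fin m))
    (hE : ∀ q ∈ E, ∃ B ∈ D.bags, e (Sum.inl q.1) ∈ B ∧ e (Sum.inr q.2) ∈ B) :
    Rz (2 ^ (w + 1)) δ (Win F (D.verts \ D.bag) D.verts) (fun i => ∑ q ∈ E, (A q.1 q.2).occ i)
      (D.size + ∑ q ∈ E, ((A q.1 q.2).size + 1))
      (fun x => prj F (D.verts \ D.bag) D.verts (ZZ e (evE A E x))) := by
  classical
  have hW : 2 ≤ 2 ^ (w + 1) := by
    calc 2 = 2 ^ 1 := rfl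
      _ ≤ 2 ^ (w + 1) := Nat.pow_le_pow_right (by norm_num) (by omega)
  induction D generalizing E with
  | leaf B =>
    have hfr := finrank_state (F := F) w (BT.leaf B) hw
    have hE' : ∀ q ∈ E, e (Sum.inl q.1) ∈ B ∧ e (Sum.inr q.2) ∈ B := by
      intro q hq
      obtain ⟨B', hB', h⟩ := hE q hq
      simp only [BT.bags, List.mem_singleton] at hB'
      rw [hB'] at h
      exact h
    have h1 : (1 : Ex F α) ∈ Win F ((BT.leaf B).verts \ (BT.leaf B).bag) (BT.leaf B).verts := by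
      have h2 : (BT.leaf B).verts \ (BT.leaf B).bag = ∅ := by
        simp [BT.verts, BT.bag]
      rw [h2]
      exact one_mem_win _
    have h0 := Rz.const (F := F) (ι := ι) (2 ^ (w + 1)) δ h1
    have hn := rz_entries e A hA hW B ((BT.leaf B).verts \ (BT.leaf B).bag) (BT.leaf B).verts
      (Finset.Subset.refl _) Finset.sdiff_disjoint hfr E hE' (s := fun _ => (1 : Ex F α))
      (fun _ => h1) h0
    refine hn.congr ?_ ?_ ?_
    · intro i
      simp
    · simp only [BT.size]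
      omega
    · intro x
      rw [mul_one]
  | node B l r ihl ihr =>
    have hfr := finrank_state (F := F) w (BT.node B l r) hw
    obtain ⟨hDl, hDr, h12, h1B, h2B⟩ := hD
    have hwl : ∀ B ∈ l.bags, B.card ≤ w + 1 := by
      intro B' hB'
      exact hw B' (by simp [BT.bags, hB'])
    have hwr : ∀ B ∈ r.bags, B.card ≤ w + 1 := by
      intro B' hB'
      exact hw B' (by simp [BT.bags, hB'])
    set E₀ : Finset (Fin m × Fin m) :=
      E.filter fun q => e (Sum.inl q.1) ∈ B ∧ e (Sum.inr q.2) ∈ B with hE₀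
    set E₁ : Finset (Fin m × Fin m) :=
      (E \ E₀).filter fun q => ∃ B' ∈ l.bags, e (Sum.inl q.1) ∈ B' ∧ e (Sum.inr q.2) ∈ B' with hE₁
    set E₂ : Finset (Fin m × Fin m) := (E \ E₀) \ E₁ with hE₂
    have hc0 : ∀ q ∈ E₀, e (Sum.inl q.1) ∈ B ∧ e (Sum.inr q.2) ∈ B := by
      intro q hq
      rw [hE₀, Finset.mem_filter] at hq
      exact hq.2
    have hc1 : ∀ q ∈ E₁, ∃ B' ∈ l.bags, e (Sum.inl q.1) ∈ B' ∧ e (Sum.inr q.2) ∈ B' := by
      intro q hq
      rw [hE₁, Finset.mem_filter] at hq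
      exact hq.2
    have hc2 : ∀ q ∈ E₂, ∃ B' ∈ r.bags, e (Sum.inl q.1) ∈ B' ∧ e (Sum.inr q.2) ∈ B' := by
      intro q hq
      rw [hE₂, Finset.mem_sdiff] at hq
      obtain ⟨hq1, hq2⟩ := hq
      rw [Finset.mem_sdiff] at hq1
      obtain ⟨B', hB', h⟩ := hE q hq1.1
      simp only [BT.bags, List.mem_cons, List.mem_append] at hB'
      rcases hB' with hB' | hB' | hB'
      · exact absurd (by rw [hE₀, Finset.mem_filter]; exact ⟨hq1.1, hB' ▸ h⟩) hq1.2
      · refine absurd ?_ hq2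
        rw [hE₁, Finset.mem_filter, Finset.mem_sdiff]
        exact ⟨hq1, B', hB', h⟩
      · exact ⟨B', hB', h⟩
    have hun2 : E₁ ∪ E₂ = E \ E₀ := by
      rw [hE₂]
      exact Finset.union_sdiff_of_subset (Finset.filter_subset _ _)
    have hun : E₀ ∪ (E₁ ∪ E₂) = E := by
      rw [hun2]
      exact Finset.union_sdiff_of_subset (Finset.filter_subset _ _)
    have hd12 : Disjoint E₁ E₂ := by
      rw [hE₂]
      exact Finset.disjoint_sdiff
    have hd0 : Disjoint E₀ (E₁ ∪ E₂) := by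
      rw [hun2]
      exact Finset.disjoint_sdiff
    have hsum : ∀ f : Fin m × Fin m → ℕ,
        ∑ q ∈ E, f q = ∑ q ∈ E₀, f q + (∑ q ∈ E₁, f q + ∑ q ∈ E₂, f q) := by
      intro f
      rw [← Finset.sum_union hd12, ← Finset.sum_union hd0, hun]
    have hl := ihl hDl hwl E₁ hc1
    have hr := ihr hDr hwr E₂ hc2
    set V : Finset α := (BT.node B l r).verts with hV
    set A₀ : Finset α := V \ (BT.node B l r).bag with hA₀
    have hVdef : V = B ∪ l.verts ∪ r.verts := rfl
    have hAdef : A₀ = V \ B := rfl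
    have hBV : B ⊆ V := by
      intro a ha
      simp [hVdef, ha]
    have hlV : l.verts ⊆ V := by
      intro a ha
      simp [hVdef, ha]
    have hrV : r.verts ⊆ V := by
      intro a ha
      simp [hVdef, ha]
    have hl1 : l.verts \ l.bag ⊆ A₀ := by
      intro a ha
      rw [Finset.mem_sdiff] at ha
      rw [hAdef, Finset.mem_sdiff]
      exact ⟨hlV ha.1, fun hB => ha.2 (h1B (Finset.mem_inter.mpr ⟨ha.1, hB⟩))⟩
    have hr1 : r.verts \ r.bag ⊆ A₀ := by
      intro a ha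
      rw [Finset.mem_sdiff] at ha
      rw [hAdef, Finset.mem_sdiff]
      exact ⟨hrV ha.1, fun hB => ha.2 (h2B (Finset.mem_inter.mpr ⟨ha.1, hB⟩))⟩
    have hl2 : Disjoint (l.verts \ l.bag) r.verts := by
      rw [Finset.disjoint_left]
      intro a ha hr'
      rw [Finset.mem_sdiff] at ha
      exact ha.2 (h1B (Finset.mem_inter.mpr ⟨ha.1, h12 (Finset.mem_inter.mpr ⟨ha.1, hr'⟩)⟩))
    have hr2 : Disjoint (r.verts \ r.bag) l.verts := by
      rw [Finset.disjoint_left]
      intro a ha hl'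
      rw [Finset.mem_sdiff] at ha
      exact ha.2 (h2B (Finset.mem_inter.mpr ⟨ha.1, h12 (Finset.mem_inter.mpr ⟨hl', ha.1⟩)⟩))
    have hm1 : ∀ x : ι → F, ZZ e (evE A E₁ x) ∈ Win F ∅ l.verts := by
      intro x
      refine evE_mem_win e A l.verts E₁ ?_ x
      intro q hq
      obtain ⟨B', hB', h⟩ := hc1 q hq
      exact ⟨BT.bags_subset hB' h.1, BT.bags_subset hB' h.2⟩
    have hm2 : ∀ x : ι → F, ZZ e (evE A E₂ x) ∈ Win F ∅ r.verts := by
      intro x
      refine evE_mem_win e A r.verts E₂ ?_ x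
      intro q hq
      obtain ⟨B', hB', h⟩ := hc2 q hq
      exact ⟨BT.bags_subset hB' h.1, BT.bags_subset hB' h.2⟩
    have hm12 : ∀ x : ι → F, ZZ e (evE A E₁ x) * ZZ e (evE A E₂ x) ∈ Win F ∅ V := by
      intro x
      refine win_mono (Finset.Subset.refl _) ?_ (win_mul (hm1 x) (hm2 x))
      exact Finset.union_subset hlV hrV
    -- the bilinear map of the node
    let β : Ex F α →ₗ[F] Ex F α →ₗ[F] Ex F α :=
      (LinearMap.mul F (Ex F α)).compr₂ (prj F A₀ V)
    have hβ : ∀ u v, β u v = prj F A₀ V (u * v) := fun u v => rfl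
    have hn := Rz.node (W := 2 ^ (w + 1)) (δ := δ)
      (U₁ := Win F (l.verts \ l.bag) l.verts) (U₂ := Win F (r.verts \ r.bag) r.verts)
      (U := Win F A₀ V) (win_fd _ _) (win_fd _ _) (finrank_state w l hwl) (finrank_state w r hwr)
      β (fun u _ v _ => by rw [hβ]; exact prj_mem A₀ V _) hl hr
    have hn' := rz_entries e A hA hW B A₀ V hBV (by rw [hAdef]; exact Finset.sdiff_disjoint) hfr
      E₀ hc0 (fun x => by rw [hβ]; exact prj_mem A₀ V _) hn
    refine hn'.congr ?_ ?_ ?_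
    · intro i
      rw [hsum]
    · rw [hsum]
      simp only [BT.size]
      omega
    · intro x
      have h0 : ZZ e (evE A E₀ x) ∈ Win F ∅ B := evE_mem_win e A B E₀ hc0 x
      rw [hβ, ← prj_mul hl1 hl2 hr1 hr2 (hm1 x) (hm2 x)]
      have hprod : ZZ e (evE A E x)
          = ZZ e (evE A E₀ x) * (ZZ e (evE A E₁ x) * ZZ e (evE A E₂ x)) := by
        rw [← ZZ_add, ← ZZ_add, ← evE_union A hd12, ← evE_union A hd0, hun]
      rw [hprod, prj_mul (A₁ := ∅) (V₁ := B) (A₂ := A₀) (V₂ := V) (Finset.empty_subset _)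
        (Finset.disjoint_empty_left _) (Finset.Subset.refl _)
        (by rw [hAdef]; exact Finset.sdiff_disjoint) h0 (hm12 x), prj_of_mem h0]

end Pool.Agent.H2.TW
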