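import Mathlib

/-!
# Bordered minors (module Border)
-/

namespace Pool.Agent.H2.TW

open Matrix

private lemma border_rows {K : Type*} [Field K] {m n : Type*} [Fintype m] [Fintype n]
    (M : Matrix m n K) {r : ℕ} (hr : r ≤ M.rank) :
    ∃ f : Fin r → m, LinearIndependent K (M.submatrix f id).row := by
  obtain ⟨κ, a, ha, hsp, hli⟩ := exists_linearIndependent' K M.row
  have : Finite κ := Finite.of_injective a ha
  have : Fintype κ := Fintype.ofFinite κ
  have h1 : Fintype.card κ = M.rank := by
    rw [M.rank_eq_finrank_span_row, ← hsp, linearIndependent_iff_card_eq_finrank_span.mp hli,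
      Set.finrank]
  have h2 : r ≤ Fintype.card κ := h1 ▸ hr
  let e : Fin r → κ := fun i => (Fintype.equivFin κ).symm ⟨i.1, lt_of_lt_of_le i.2 h2⟩
  have he : Function.Injective e := by
    intro i j hij
    have := (Fintype.equivFin κ).symm.injective hij
    exact Fin.ext (by simpa using this)
  refine ⟨a ∘ e, ?_⟩
  exact hli.comp e he

private lemma border_minor {K : Type*} [Field K] {m n : Type*} [Fintype m] [Fintype n]
    (M : Matrix m n K) {r : ℕ} (hr : r ≤ M.rank) :
    ∃ (f : Fin r → m) (g : Fin r → n), (M.submatrix f g).det ≠ 0 := by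
  classical
  obtain ⟨f, hf⟩ := border_rows M hr
  have h1 : (M.submatrix f id).rank = r := by
    rw [hf.rank_matrix]; simp
  have h2 : r ≤ (M.submatrix f id)ᵀ.rank := by rw [Matrix.rank_transpose, h1]
  obtain ⟨g, hg⟩ := border_rows (M.submatrix f id)ᵀ h2
  refine ⟨f, g, ?_⟩
  have h3 : ((M.submatrix f id)ᵀ.submatrix g id) = (M.submatrix f g)ᵀ := by
    ext i j; rfl
  rw [h3] at hg
  have h4 := Matrix.linearIndependent_rows_iff_isUnit.1 hg
  rw [Matrix.isUnit_iff_isUnit_det, Matrix.det_transpose] at h4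
  exact h4.ne_zero

/-- the bordered matrix as a block matrix -/
private def bord {K : Type*} [Field K] {m m' : ℕ} (A : Matrix (Fin m) (Fin m') K) {s : ℕ}
    (f : Fin s → Fin m) (g : Fin s → Fin m') (i : Fin m) (j : Fin m') :
    Matrix (Fin s ⊕ Fin 1) (Fin s ⊕ Fin 1) K :=
  fromBlocks (A.submatrix f g) (Matrix.of fun a _ => A (f a) j) (Matrix.of fun _ b => A i (g b))
    (Matrix.of fun _ _ => A i j)

private lemma bord_det {K : Type*} [Field K] {m m' : ℕ} (A : Matrix (Fin m) (Fin m') K) {s : ℕ}
    (f : Fin s ↪ Fin m) (g : Fin s ↪ Fin m')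
    (h : ∀ (f' : Fin (s + 1) ↪ Fin m) (g' : Fin (s + 1) ↪ Fin m'),
        (∀ i : Fin s, f' i.castSucc = f i) → (∀ i : Fin s, g' i.castSucc = g i) →
        (A.submatrix f' g').det = 0) (i : Fin m) (j : Fin m') : (bord A f g i j).det = 0 := by
  by_cases hi : ∃ a, f a = i
  · obtain ⟨a, rfl⟩ := hi
    refine Matrix.det_zero_of_row_eq (i := Sum.inl a) (j := Sum.inr 0) (by simp) ?_
    funext c
    rcases c with c | c <;> rfl
  by_cases hj : ∃ b, g b = j
  · obtain ⟨b, rfl⟩ := hj
    refine Matrix.det_zero_of_column_eq (i := Sum.inl b) (j := Sum.inr 0) (by simp) ?_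
    intro c
    rcases c with c | c <;> rfl
  have hf' : Function.Injective (Fin.snoc (α := fun _ => Fin m) f i) := by
    rw [Fin.snoc_injective_iff]
    exact ⟨f.injective, fun hc => hi (by simpa using hc)⟩
  have hg' : Function.Injective (Fin.snoc (α := fun _ => Fin m') g j) := by
    rw [Fin.snoc_injective_iff]
    exact ⟨g.injective, fun hc => hj (by simpa using hc)⟩
  have h1 := h ⟨_, hf'⟩ ⟨_, hg'⟩ (fun a => by simp) (fun a => by simp)
  rw [← Matrix.det_submatrix_equiv_self (finSumFinEquiv : Fin s ⊕ Fin 1 ≃ Fin (s + 1))] at h1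
  rw [← h1]
  congr 1
  ext c d
  have e1 : ∀ a : Fin s, finSumFinEquiv (Sum.inl a : Fin s ⊕ Fin 1) = a.castSucc := fun a => rfl
  have e2 : ∀ a : Fin 1, finSumFinEquiv (Sum.inr a : Fin s ⊕ Fin 1) = Fin.last s := by
    intro a
    apply Fin.ext
    simp
  rcases c with c | c <;> rcases d with d | d <;>
    simp [bord, e1, e2, Matrix.submatrix_apply]

private lemma rank_le_of_bord {K : Type*} [Field K] {m m' : ℕ} (A : Matrix (Fin m) (Fin m') K) {s : ℕ}
    (f : Fin s → Fin m) (g : Fin s → Fin m') (h0 : (A.submatrix f g).det ≠ 0)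
    (h : ∀ i j, (bord A f g i j).det = 0) : A.rank ≤ s := by
  classical
  have hu : IsUnit (A.submatrix f g).det := isUnit_iff_ne_zero.2 h0
  letI : Invertible (A.submatrix f g) := Matrix.invertibleOfIsUnitDet _ hu
  have key : A = (A.submatrix id g) * ((A.submatrix f g)⁻¹ * A.submatrix f id) := by
    ext i j
    have h1 := h i j
    unfold bord at h1
    rw [Matrix.det_fromBlocks₁₁] at h1
    have h2 := (mul_eq_zero.1 h1).resolve_left h0
    rw [Matrix.det_fin_one, Matrix.sub_apply, sub_eq_zero] at h2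
    have h3 : A i j = (Matrix.of (fun (_ : Fin 1) b => A i (g b)) * ⅟(A.submatrix f g) *
      Matrix.of fun a (_ : Fin 1) => A (f a) j) 0 0 := h2
    rw [h3, Matrix.invOf_eq_nonsing_inv, Matrix.mul_assoc]
    simp only [Matrix.mul_apply, Matrix.of_apply, Matrix.submatrix_apply, id_eq]
  rw [key]
  refine (Matrix.rank_mul_le_left _ _).trans ?_
  refine (Matrix.rank_le_card_width _).trans ?_
  simp

/-- a nonsingular `s × s` submatrix all of whose one-step extensions are singular has the rank of
the matrix; together with `s = 0` as a start this characterises `rank < r` -/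
theorem rank_lt_iff_border {K : Type*} [Field K] {m m' : ℕ} (A : Matrix (Fin m) (Fin m') K)
    (r : ℕ) :
    A.rank < r ↔ ∃ s < r, ∃ (f : Fin s ↪ Fin m) (g : Fin s ↪ Fin m'),
      (A.submatrix f g).det ≠ 0 ∧
      ∀ (f' : Fin (s + 1) ↪ Fin m) (g' : Fin (s + 1) ↪ Fin m'),
        (∀ i : Fin s, f' i.castSucc = f i) → (∀ i : Fin s, g' i.castSucc = g i) →
        (A.submatrix f' g').det = 0 := by
  constructor
  · intro hr
    obtain ⟨f, g, hfg⟩ := border_minor A (le_refl A.rank)
    have hf : Function.Injective f := by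
      intro a b hab
      by_contra hne
      apply hfg
      refine Matrix.det_zero_of_row_eq hne ?_
      funext c
      simp [Matrix.submatrix_apply, hab]
    have hg : Function.Injective g := by
      intro a b hab
      by_contra hne
      apply hfg
      refine Matrix.det_zero_of_column_eq hne ?_
      intro c
      simp [Matrix.submatrix_apply, hab]
    refine ⟨A.rank, hr, ⟨f, hf⟩, ⟨g, hg⟩, hfg, ?_⟩
    intro f' g' _ _
    by_contra hne
    have h1 : (A.submatrix f' g').rank = A.rank + 1 := by
      rw [Matrix.rank_of_det_ne_zero hne]; simp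
    have h2 := Matrix.rank_submatrix_le A f' g'
    omega
  · rintro ⟨s, hs, f, g, h0, h⟩
    exact lt_of_le_of_lt (rank_le_of_bord A f g h0 (bord_det A f g h)) hs

end Pool.Agent.H2.TW
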