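import Pool.Agent.H2.TW.TopcA

/-!
# The top coordinate at the identity matrix (module TopcC)

At the identity matrix the product is a product of monomials on disjoint sets, so it is `± eb univ`
(prove for lists `l` without repetition: the product over `l` is `c • eb {e (inl i), e (inr i)}`,
`i ∈ l`, with `c = 1` or `c = -1`, using `eb_mul`, `eb_singleton`).
-/

namespace Pool.Agent.H2.TW

variable {F : Type*} [Field F] {α : Type*} [LinearOrder α] [Fintype α] {m : ℕ}

private theorem pm_ne {c : F} (hc : c = 1 ∨ c = -1) : c ≠ 0 := by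
  rcases hc with rfl | rfl
  · exact one_ne_zero
  · exact neg_ne_zero.2 one_ne_zero

private theorem yy_one (e : Fin m ⊕ Fin m ≃ α) (i : Fin m) :
    ∃ c : F, c ≠ 0 ∧ yy e i ((1 : Matrix (Fin m) (Fin m) F) i) =
      c • eb F α {e (Sum.inl i), e (Sum.inr i)} := by
  have h1 : (1 : Matrix (Fin m) (Fin m) F) i = Pi.single i (1 : F) := by
    funext j
    rw [Matrix.one_apply, Pi.single_apply]
    simp only [eq_comm]
  have hd : Disjoint ({e (Sum.inl i)} : Finset α) {e (Sum.inr i)} := by
    rw [Finset.disjoint_singleton]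
    intro h
    exact absurd (e.injective h) (by simp)
  obtain ⟨c, hc, hmul⟩ := eb_mul (F := F) hd
  refine ⟨c, pm_ne hc, ?_⟩
  rw [h1, yy_single, one_smul, ← eb_singleton, ← eb_singleton, hmul]
  rfl

private theorem prod_list (e : Fin m ⊕ Fin m ≃ α) (l : List (Fin m)) (hl : l.Nodup) :
    ∃ c : F, c ≠ 0 ∧ (l.map fun i => yy e i ((1 : Matrix (Fin m) (Fin m) F) i)).prod =
      c • eb F α (l.toFinset.biUnion fun i => {e (Sum.inl i), e (Sum.inr i)}) := by
  induction l with
  | nil =>
    refine ⟨1, one_ne_zero, ?_⟩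
    simp [eb_empty]
  | cons i l ih =>
    rw [List.nodup_cons] at hl
    obtain ⟨c, hc, hcl⟩ := ih hl.2
    obtain ⟨d, hd, hdl⟩ := yy_one (F := F) e i
    have hdis : Disjoint ({e (Sum.inl i), e (Sum.inr i)} : Finset α)
        (l.toFinset.biUnion fun i => {e (Sum.inl i), e (Sum.inr i)}) := by
      rw [Finset.disjoint_biUnion_right]
      intro j hj
      have hij : i ≠ j := by
        rintro rfl
        exact hl.1 (List.mem_toFinset.1 hj)
      rw [Finset.disjoint_left]
      intro x hx hx'
      simp only [Finset.mem_insert, Finset.mem_singleton] at hx hx'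
      rcases hx with rfl | rfl <;> rcases hx' with h | h <;>
        · have := e.injective h
          simp_all
    obtain ⟨f, hf, hmul⟩ := eb_mul (F := F) hdis
    refine ⟨d * c * f, mul_ne_zero (mul_ne_zero hd hc) (pm_ne hf), ?_⟩
    rw [List.map_cons, List.prod_cons, hdl, hcl, smul_mul_smul_comm, hmul, smul_smul,
      List.toFinset_cons, Finset.biUnion_insert]

theorem topc_PY_one (e : Fin m ⊕ Fin m ≃ α) :
    topc F α (PY e (1 : Matrix (Fin m) (Fin m) F)) ≠ 0 := by
  obtain ⟨c, hc, h⟩ := prod_list (F := F) e (List.finRange m) (List.nodup_finRange m)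
  have huniv : ((List.finRange m).toFinset.biUnion fun i => ({e (Sum.inl i), e (Sum.inr i)} :
      Finset α)) = Finset.univ := by
    rw [Finset.eq_univ_iff_forall]
    intro a
    rw [Finset.mem_biUnion]
    obtain ⟨s, rfl⟩ := e.surjective a
    rcases s with i | i
    · exact ⟨i, by simp, by simp⟩
    · exact ⟨i, by simp, by simp⟩
  rw [PY, h, huniv, topc, map_smul, Module.Basis.coord_apply, Module.Basis.repr_self,
    Finsupp.single_eq_same, smul_eq_mul, mul_one]
  exact hc

end Pool.Agent.H2.TW
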