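import Pool.Agent.H2.TW.TopcB
import Pool.Agent.H2.TW.TopcC

/-!
# The top coordinate of `ZZ e M` is the determinant up to a constant (module ZTop, done)
-/

namespace Pool.Agent.H2.TW

variable {F : Type*} [Field F] {α : Type*} [LinearOrder α] [Fintype α] {m : ℕ}

theorem topc_ZZ (e : Fin m ⊕ Fin m ≃ α) :
    ∃ κ : F, κ ≠ 0 ∧ ∀ M : Matrix (Fin m) (Fin m) F, topc F α (ZZ e M) = κ * M.det :=
  ⟨_, topc_PY_one e, fun M => by rw [topc_ZZ_eq, topc_PY_det, mul_comm]⟩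

end Pool.Agent.H2.TW
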