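import Pool.Agent.H2.TW.AsmT
import Pool.Agent.H2.TW.ZTop

/-!
# The determinant of a matrix of bounded treewidth is a network (module DetNet)
-/

namespace Pool.Agent.H2.TW

open Pool.Agent.H2.RK Matrix

variable {F : Type*} {ι : Type*} [Field F] [DecidableEq ι]

/-- the value of a matrix of formulas -/
noncomputable def evM {m n : Type*} (A : Matrix m n (Fq F ι)) (x : ι → F) : Matrix m n F :=
  A.map fun f => f.eval x

/-- the matrix of polynomials of a matrix of formulas -/
noncomputable def polyM {m n : Type*} (A : Matrix m n (Fq F ι)) :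
    Matrix m n (MvPolynomial ι F) := A.map Fq.poly

theorem evM_eq_map {m n : Type*} (A : Matrix m n (Fq F ι)) (x : ι → F) :
    evM A x = (polyM A).map (MvPolynomial.eval x) := by
  ext i j
  simp [evM, polyM, Fq.eval_poly]

private theorem evE_eq_evM {m : ℕ} (A : Matrix (Fin m) (Fin m) (Fq F ι))
    (E : Finset (Fin m × Fin m)) (hE : ∀ i j, (i, j) ∉ E → (A i j).poly = 0) (x : ι → F) :
    evE A E x = evM A x := by
  ext i j
  simp only [evE, evM, Matrix.of_apply, Matrix.map_apply]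
  split_ifs with h
  · rfl
  · rw [← Fq.eval_poly, hE i j h, map_zero]

/-- the network of the determinant -/
theorem exists_detNet {δ : ℕ} (w : ℕ) {m : ℕ} (A : Matrix (Fin m) (Fin m) (Fq F ι))
    (hA : ∀ i j, (A i j).DegLe δ) (D : BT (Fin m ⊕ Fin m)) (hD : D.Valid)
    (hw : ∀ B ∈ D.bags, B.card ≤ w + 1)
    (hcov : ∀ i j, (A i j).poly ≠ 0 → ∃ B ∈ D.bags, Sum.inl i ∈ B ∧ Sum.inr j ∈ B) :
    ∃ t : Net F ι (2 ^ (w + 1)), (∀ i, t.cnt i ≤ ∑ p, ∑ q, (A p q).occ i) ∧ LeafDeg δ t ∧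
      t.size ≤ D.size + (∑ p, ∑ q, ((A p q).size + 1)) + 2 ∧
      ∀ x, t.val x ⟨0, by positivity⟩ = (evM A x).det := by
  classical
  -- the linear order
  let e : Fin m ⊕ Fin m ≃ Fin (m + m) := finSumFinEquiv
  let e' : Fin (m + m) ↪ Fin m ⊕ Fin m := e.symm.toEmbedding
  set D' : BT (Fin (m + m)) := D.comap e' with hD'
  set E : Finset (Fin m × Fin m) := Finset.univ.filter fun q => (A q.1 q.2).poly ≠ 0 with hE
  have hEn : ∀ i j, (i, j) ∉ E → (A i j).poly = 0 := by
    intro i j h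
    by_contra h0
    exact h (by simp [hE, h0])
  have hD'v : D'.Valid := hD.comap e'
  have hD'w : ∀ B ∈ D'.bags, B.card ≤ w + 1 := BT.card_bags_comap e' hw
  have hcov' : ∀ q ∈ E, ∃ B ∈ D'.bags, e (Sum.inl q.1) ∈ B ∧ e (Sum.inr q.2) ∈ B := by
    intro q hq
    have hq' : (A q.1 q.2).poly ≠ 0 := by simpa [hE] using hq
    obtain ⟨B, hB, h1, h2⟩ := hcov _ _ hq'
    refine ⟨B.preimage e' e'.injective.injOn, ?_, ?_, ?_⟩
    · rw [hD', BT.bags_comap]
      exact List.mem_map.2 ⟨B, hB, rfl⟩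
    · simpa [e'] using h1
    · simpa [e'] using h2
  have hmem : ∀ a : Fin (m + m), ∀ B ∈ D'.bags, a ∈ B → a ∈ D'.verts := fun a B hB ha =>
    BT.bags_subset hB ha
  have hrz := rz_tree w e A hA D' hD'v hD'w E hcov'
  set A₀ := D'.verts \ D'.bag with hA₀
  have hfd : FiniteDimensional F (Win F A₀ D'.verts) := win_fd _ _
  have hrk : Module.finrank F (Win F A₀ D'.verts) ≤ 2 ^ (w + 1) := by
    refine (win_finrank _ _).trans (Nat.pow_le_pow_right (by norm_num) ?_)
    refine le_trans (Finset.card_le_card ?_) (hD'w _ (BT.bag_mem_bags D'))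
    intro a ha
    simp only [hA₀, Finset.mem_sdiff, not_and, not_not] at ha
    exact ha.2 ha.1
  obtain ⟨κ, hκ, hdet⟩ := topc_ZZ (F := F) e
  have hW : 1 ≤ 2 ^ (w + 1) := Nat.one_le_two_pow
  obtain ⟨t, ht1, ht2, ht3, ht4⟩ := hrz.functional hW hfd hrk (κ⁻¹ • topc F (Fin (m + m)))
  refine ⟨t, fun i => ?_, ht2, ?_, fun x => ?_⟩
  · rw [ht1 i, ← Finset.sum_product' (s := Finset.univ) (t := Finset.univ)
      (f := fun p q => (A p q).occ i)]
    exact Finset.sum_le_sum_of_subset (Finset.subset_univ _)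
  · refine ht3.trans ?_
    have h1 : D'.size = D.size := BT.size_comap e' D
    have h2 : ∑ q ∈ E, ((A q.1 q.2).size + 1) ≤ ∑ p, ∑ q, ((A p q).size + 1) := by
      rw [← Finset.sum_product' (s := Finset.univ) (t := Finset.univ)
        (f := fun p q => (A p q).size + 1)]
      exact Finset.sum_le_sum_of_subset (Finset.subset_univ _)
    omega
  · rw [ht4 x, evE_eq_evM A E hEn x]
    have hZ : ZZ e (evM A x) ∈ Win F ∅ D'.verts := by
      refine ZZ_mem e _ _ fun i j hij => ?_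
      have hq : (i, j) ∈ E := by
        by_contra h
        apply hij
        simp only [evM, Matrix.map_apply]
        rw [← Fq.eval_poly, hEn i j h, map_zero]
      obtain ⟨B, hB, h1, h2⟩ := hcov' _ hq
      exact ⟨hmem _ B hB h1, hmem _ B hB h2⟩
    have h3 : topc F (Fin (m + m)) (prj F A₀ D'.verts (ZZ e (evM A x))) =
        topc F (Fin (m + m)) (ZZ e (evM A x)) := coord_univ_prj hZ
    rw [LinearMap.smul_apply, h3, hdet, smul_eq_mul, ← mul_assoc, inv_mul_cancel₀ hκ, one_mul]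

end Pool.Agent.H2.TW
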