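import Mathlib

/-!
# The exterior algebra of a coordinate space: monomial basis (module Ext)

`ex F α` is the exterior algebra of `F^α` (`α` finite, linearly ordered), `eb` its monomial basis,
indexed by the finite subsets of `α` (Mathlib: `Module.Basis.ExteriorAlgebra`,
`ExteriorAlgebra.basis_mul_of_disjoint`, `ExteriorAlgebra.basis_mul_of_not_disjoint`,
`ExteriorAlgebra.basis_apply_ofCard`).
-/

namespace Pool.Agent.H2.TW

variable {F : Type*} [Field F] {α : Type*} [LinearOrder α] [Fintype α]

/-- the exterior algebra of `F^α` -/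
abbrev Ex (F : Type*) [Field F] (α : Type*) := ExteriorAlgebra F (α → F)

/-- the monomial basis of the exterior algebra -/
noncomputable def eb (F : Type*) [Field F] (α : Type*) [LinearOrder α] [Fintype α] :
    Module.Basis (Finset α) F (Ex F α) :=
  (Pi.basisFun F α).ExteriorAlgebra

omit [Fintype α] in
private theorem gb_empty {M : Type*} [AddCommGroup M] [Module F M] (b : Module.Basis α F M) :
    b.ExteriorAlgebra ∅ = 1 := by
  have h := ExteriorAlgebra.basis_apply_ofCard (n := 0) b (Finset.card_empty (α := α))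
  rw [h]
  simp [ExteriorAlgebra.ιMulti_family]

omit [Fintype α] in
private theorem gb_singleton {M : Type*} [AddCommGroup M] [Module F M] (b : Module.Basis α F M)
    (a : α) : b.ExteriorAlgebra {a} = ExteriorAlgebra.ι F (b a) := by
  have h := ExteriorAlgebra.basis_apply_ofCard (n := 1) b (Finset.card_singleton a)
  rw [h]
  have h2 : (Set.powersetCard.ofFinEmbEquiv.symm
      (Set.powersetCard.ofCard (Finset.card_singleton a))) 0 = a := by
    have h3 := (Set.powersetCard.mem_range_ofFinEmbEquiv_symm_iff_mem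
      (Set.powersetCard.ofCard (Finset.card_singleton a)) ((Set.powersetCard.ofFinEmbEquiv.symm
      (Set.powersetCard.ofCard (Finset.card_singleton a))) 0)).1 ⟨0, rfl⟩
    have h4 : (Set.powersetCard.ofFinEmbEquiv.symm
      (Set.powersetCard.ofCard (Finset.card_singleton a))) 0 ∈ ({a} : Finset α) := h3
    exact Finset.mem_singleton.1 h4
  simp [ExteriorAlgebra.ιMulti_family, ExteriorAlgebra.ιMulti_apply, h2]

omit [Fintype α] in
private theorem gb_mul {M : Type*} [AddCommGroup M] [Module F M] (b : Module.Basis α F M)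
    {S T : Finset α} (h : Disjoint S T) :
    ∃ c : F, (c = 1 ∨ c = -1) ∧
      b.ExteriorAlgebra S * b.ExteriorAlgebra T = c • b.ExteriorAlgebra (S ∪ T) := by
  obtain ⟨s, hs⟩ : ∃ s : Set.powersetCard α S.card, s.val = S :=
    ⟨Set.powersetCard.ofCard (s := S) rfl, rfl⟩
  obtain ⟨t, ht⟩ : ∃ t : Set.powersetCard α T.card, t.val = T :=
    ⟨Set.powersetCard.ofCard (s := T) rfl, rfl⟩
  have hd : Disjoint s.val t.val := by rw [hs, ht]; exact h
  have hm := ExteriorAlgebra.basis_mul_of_disjoint b s t hd
  have hu : (Set.powersetCard.disjUnion hd : Finset α) = S ∪ T := by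
    rw [Set.powersetCard.coe_disjUnion, Finset.disjUnion_eq_union, hs, ht]
  rw [hu] at hm
  have hm2 : b.ExteriorAlgebra S * b.ExteriorAlgebra T =
      Equiv.Perm.sign (Set.powersetCard.permOfDisjoint hd) • b.ExteriorAlgebra (S ∪ T) := by
    rw [← hm, hs, ht]
  rw [hm2]
  rcases Int.units_eq_one_or (Equiv.Perm.sign (Set.powersetCard.permOfDisjoint hd)) with h1 | h1
  · exact ⟨1, Or.inl rfl, by rw [h1]; simp⟩
  · exact ⟨-1, Or.inr rfl, by rw [h1]; simp⟩

omit [Fintype α] in
private theorem gb_mul_zero {M : Type*} [AddCommGroup M] [Module F M] (b : Module.Basis α F M)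
    {S T : Finset α} (h : ¬ Disjoint S T) :
    b.ExteriorAlgebra S * b.ExteriorAlgebra T = 0 :=
  ExteriorAlgebra.basis_mul_of_not_disjoint b (Set.powersetCard.ofCard (s := S) rfl)
    (Set.powersetCard.ofCard (s := T) rfl) h

theorem eb_empty : eb F α ∅ = 1 := gb_empty (Pi.basisFun F α)

theorem eb_singleton (a : α) : eb F α {a} = ExteriorAlgebra.ι F (Pi.single a (1 : F)) := by
  have h := gb_singleton (Pi.basisFun F α) a
  rw [Pi.basisFun_apply] at h
  exact h

theorem eb_mul {S T : Finset α} (h : Disjoint S T) :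
    ∃ c : F, (c = 1 ∨ c = -1) ∧ eb F α S * eb F α T = c • eb F α (S ∪ T) :=
  gb_mul (Pi.basisFun F α) h

theorem eb_mul_zero {S T : Finset α} (h : ¬ Disjoint S T) : eb F α S * eb F α T = 0 :=
  gb_mul_zero (Pi.basisFun F α) h

end Pool.Agent.H2.TW
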