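import Pool.Agent.H2.RK.Basic
import Pool.Agent.H2.RK.GridDeg

/-!
# Arithmetic formulas with univariate leaves (module Fq)

Leaves: constants and univariate polynomials in one variable; gates: sum and product.  The
occurrences of a variable are the univariate leaves with that variable.
-/

namespace Pool.Agent.H2.TW

open Matrix

/-- arithmetic formulas: constants, univariate polynomials of one variable, sums, products -/
inductive Fq (F : Type*) (ι : Type*) [Field F]
  | con : F → Fq F ι
  | uni : ι → Polynomial F → Fq F ι
  | add : Fq F ι → Fq F ι → Fq F ι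
  | mul : Fq F ι → Fq F ι → Fq F ι

variable {F : Type*} {ι : Type*} [Field F]

/-- value at a point -/
noncomputable def Fq.eval : Fq F ι → (ι → F) → F
  | .con c, _ => c
  | .uni i p, x => p.eval (x i)
  | .add f g, x => f.eval x + g.eval x
  | .mul f g, x => f.eval x * g.eval x

/-- the polynomial computed by a formula -/
noncomputable def Fq.poly : Fq F ι → MvPolynomial ι F
  | .con c => MvPolynomial.C c
  | .uni i p => Polynomial.aeval (MvPolynomial.X i) p
  | .add f g => f.poly + g.poly
  | .mul f g => f.poly * g.poly

/-- number of occurrences of a variable -/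
def Fq.occ [DecidableEq ι] : Fq F ι → ι → ℕ
  | .con _, _ => 0
  | .uni i _, j => if i = j then 1 else 0
  | .add f g, j => f.occ j + g.occ j
  | .mul f g, j => f.occ j + g.occ j

/-- number of leaves and gates -/
def Fq.size : Fq F ι → ℕ
  | .con _ => 1
  | .uni _ _ => 1
  | .add f g => f.size + g.size + 1
  | .mul f g => f.size + g.size + 1

/-- all univariate leaves have degree at most `δ` -/
def Fq.DegLe (δ : ℕ) : Fq F ι → Prop
  | .con _ => True
  | .uni _ p => p.natDegree ≤ δ
  | .add f g => f.DegLe δ ∧ g.DegLe δ
  | .mul f g => f.DegLe δ ∧ g.DegLe δ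

theorem Fq.eval_poly (f : Fq F ι) (x : ι → F) : MvPolynomial.eval x f.poly = f.eval x := by
  induction f with
  | con c => simp [Fq.poly, Fq.eval]
  | uni i p =>
    simp only [Fq.poly, Fq.eval]
    have h : (MvPolynomial.eval x).comp (algebraMap F (MvPolynomial ι F)) = RingHom.id F := by
      ext c
      simp
    rw [Polynomial.aeval_def, Polynomial.hom_eval₂, h, MvPolynomial.eval_X, Polynomial.eval₂_id]
  | add f g ihf ihg => simp [Fq.poly, Fq.eval, ihf, ihg]
  | mul f g ihf ihg => simp [Fq.poly, Fq.eval, ihf, ihg]

theorem Fq.size_pos (f : Fq F ι) : 1 ≤ f.size := by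
  cases f <;> simp [Fq.size]

end Pool.Agent.H2.TW
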