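import Pool.Agent.H2.RK.Basic
import Pool.Agent.H2.RK.AnnL
import Pool.Agent.H2.RK.GridDeg

/-!
# Realisation of bilinear recursions by networks (module Real)

`Rz W δ U cnt N s`: the function `s` with values in the subspace `U` of `V` is computed by networks
of width `W`, with respect to every system of coordinates `L : F^W → V` whose range contains `U`;
`cnt` is the exact number of occurrences of the letters, `N` bounds the size, `δ` the degrees of
the leaves.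
-/

namespace Pool.Agent.H2.TW

open Pool.Agent.H2.RK Matrix

variable {F : Type*} {ι : Type*} [Field F] [DecidableEq ι] {V : Type*} [AddCommGroup V] [Module F V]

/-- the function `s` is realised in the subspace `U` by networks of width `W` -/
def Rz (W δ : ℕ) (U : Submodule F V) (cnt : ι → ℕ) (N : ℕ) (s : (ι → F) → V) : Prop :=
  ∀ L : (Fin W → F) →ₗ[F] V, U ≤ LinearMap.range L →
    ∃ t : Net F ι W, (∀ i, t.cnt i = cnt i) ∧ LeafDeg δ t ∧ t.size ≤ N ∧ ∀ x, L (t.val x) = s x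

private theorem rz_exists_coord {U : Submodule F V} (hf : FiniteDimensional F U) {W : ℕ}
    (hU : Module.finrank F U ≤ W) :
    ∃ L : (Fin W → F) →ₗ[F] V, U ≤ LinearMap.range L ∧ ∀ w, L w ∈ U := by
  classical
  let b := Module.finBasis F U
  let g : Fin W → U := fun i => if h : (i : ℕ) < Module.finrank F U then b ⟨i, h⟩ else 0
  let G : (Fin W → F) →ₗ[F] U := Fintype.linearCombination F g
  have hG : ∀ j, b j ∈ LinearMap.range G := by
    intro j
    refine ⟨Pi.single ⟨j, lt_of_lt_of_le j.2 hU⟩ 1, ?_⟩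
    show Fintype.linearCombination F g _ = _
    rw [Fintype.linearCombination_apply_single, one_smul]
    show (if h : (j : ℕ) < Module.finrank F U then b ⟨j, h⟩ else 0) = b j
    rw [dif_pos j.2]
  have hG2 : LinearMap.range G = ⊤ := by
    rw [eq_top_iff, ← b.span_eq, Submodule.span_le]
    rintro _ ⟨j, rfl⟩
    exact hG j
  refine ⟨U.subtype ∘ₗ G, ?_, fun w => (G w).2⟩
  intro u hu
  have h1 : (⟨u, hu⟩ : U) ∈ LinearMap.range G := by rw [hG2]; trivial
  obtain ⟨w, hw⟩ := h1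
  refine ⟨w, ?_⟩
  rw [LinearMap.comp_apply, hw]
  rfl

private theorem rz_lin {V' : Type*} [AddCommGroup V'] [Module F V'] {W : ℕ}
    (L : (Fin W → F) →ₗ[F] V') (w : Fin W → F) : L w = ∑ u, w u • L (Pi.single u 1) := by
  classical
  conv_lhs => rw [← Finset.univ_sum_single w, map_sum]
  refine Finset.sum_congr rfl fun u _ => ?_
  rw [← map_smul]
  congr 1
  funext j
  by_cases h : j = u
  · subst h; simp
  · simp [h]

/-- constants -/
theorem Rz.const (W δ : ℕ) {U : Submodule F V} {u : V} (hu : u ∈ U) :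
    Rz W δ U (fun _ : ι => 0) 1 (fun _ => u) := by
  intro L hL
  obtain ⟨w, hw⟩ := hL hu
  exact ⟨Net.const w, fun _ => rfl, trivial, le_refl _, fun _ => hw⟩

/-- leaves: `u₀ + p(x_i) u₁` -/
theorem Rz.leaf (W δ : ℕ) {U : Submodule F V} {u₀ u₁ : V} (h₀ : u₀ ∈ U) (h₁ : u₁ ∈ U) (i : ι)
    (p : Polynomial F) (hp : p.natDegree ≤ δ) :
    Rz W δ U (fun j : ι => if i = j then 1 else 0) 1 (fun x => u₀ + p.eval (x i) • u₁) := by
  intro L hL
  obtain ⟨w₀, hw₀⟩ := hL h₀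
  obtain ⟨w₁, hw₁⟩ := hL h₁
  refine ⟨Net.leaf i fun q => Polynomial.C (w₀ q) + p * Polynomial.C (w₁ q), fun _ => rfl, ?_,
    le_refl _, ?_⟩
  · intro q
    refine (Polynomial.natDegree_add_le _ _).trans (max_le ?_ ?_)
    · rw [Polynomial.natDegree_C]; exact Nat.zero_le _
    · exact (Polynomial.natDegree_mul_C_le _ _).trans hp
  · intro x
    have h1 : (Net.leaf i fun q => Polynomial.C (w₀ q) + p * Polynomial.C (w₁ q) :
        Net F ι W).val x = w₀ + p.eval (x i) • w₁ := by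
      funext q
      simp [Net.val]
    rw [h1, map_add, map_smul, hw₀, hw₁]

/-- nodes: a bilinear map `β` with `β(U₁, U₂) ⊆ U` -/
theorem Rz.node {W δ : ℕ} {V₁ V₂ : Type*} [AddCommGroup V₁] [Module F V₁] [AddCommGroup V₂]
    [Module F V₂] {U₁ : Submodule F V₁} {U₂ : Submodule F V₂} {U : Submodule F V}
    (hf₁ : FiniteDimensional F U₁) (hf₂ : FiniteDimensional F U₂)
    (hU₁ : Module.finrank F U₁ ≤ W) (hU₂ : Module.finrank F U₂ ≤ W)
    (β : V₁ →ₗ[F] V₂ →ₗ[F] V) (hβ : ∀ u ∈ U₁, ∀ v ∈ U₂, β u v ∈ U)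
    {c₁ c₂ : ι → ℕ} {N₁ N₂ : ℕ} {s₁ : (ι → F) → V₁} {s₂ : (ι → F) → V₂}
    (h₁ : Rz W δ U₁ c₁ N₁ s₁) (h₂ : Rz W δ U₂ c₂ N₂ s₂) :
    Rz W δ U (fun i => c₁ i + c₂ i) (N₁ + N₂ + 1) (fun x => β (s₁ x) (s₂ x)) := by
  classical
  intro L hL
  obtain ⟨L₁, hL₁, hm₁⟩ := rz_exists_coord hf₁ hU₁
  obtain ⟨L₂, hL₂, hm₂⟩ := rz_exists_coord hf₂ hU₂
  obtain ⟨t₁, hc₁, hd₁, hs₁, hv₁⟩ := h₁ L₁ hL₁
  obtain ⟨t₂, hc₂, hd₂, hs₂, hv₂⟩ := h₂ L₂ hL₂
  have hb : ∀ u v : Fin W, ∃ b : Fin W → F,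
      L b = β (L₁ (Pi.single u 1)) (L₂ (Pi.single v 1)) := fun u v =>
    hL (hβ _ (hm₁ _) _ (hm₂ _))
  choose b hb using hb
  refine ⟨Net.node (fun p u v => b u v p) t₁ t₂, ?_, ⟨hd₁, hd₂⟩, ?_, ?_⟩
  · intro i
    show t₁.cnt i + t₂.cnt i = _
    rw [hc₁, hc₂]
  · show t₁.size + t₂.size + 1 ≤ _
    omega
  · intro x
    have h1 : (Net.node (fun p u v => b u v p) t₁ t₂ : Net F ι W).val x =
        ∑ u, ∑ v, (t₁.val x u * t₂.val x v) • b u v := by
      funext p
      show ∑ u, ∑ v, b u v p * t₁.val x u * t₂.val x v = _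
      rw [Finset.sum_apply]
      refine Finset.sum_congr rfl fun u _ => ?_
      rw [Finset.sum_apply]
      refine Finset.sum_congr rfl fun v _ => ?_
      rw [Pi.smul_apply, smul_eq_mul]
      ring
    show _ = β (s₁ x) (s₂ x)
    have e1 : β (L₁ (t₁.val x)) = ∑ u, t₁.val x u • β (L₁ (Pi.single u 1)) := by
      rw [rz_lin L₁ (t₁.val x), map_sum]
      exact Finset.sum_congr rfl fun u _ => map_smul _ _ _
    rw [h1, map_sum, ← hv₁ x, ← hv₂ x, e1, LinearMap.sum_apply]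
    refine Finset.sum_congr rfl fun u _ => ?_
    rw [map_sum, rz_lin L₂ (t₂.val x), map_sum]
    refine Finset.sum_congr rfl fun v _ => ?_
    rw [map_smul, hb, map_smul, LinearMap.smul_apply, smul_smul, mul_comm]

theorem Rz.congr {W δ : ℕ} {U : Submodule F V} {c c' : ι → ℕ} {N N' : ℕ} {s s' : (ι → F) → V}
    (h : Rz W δ U c N s) (hc : ∀ i, c' i = c i) (hN : N ≤ N') (hs : ∀ x, s' x = s x) :
    Rz W δ U c' N' s' := by
  intro L hL
  obtain ⟨t, h1, h2, h3, h4⟩ := h L hL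
  exact ⟨t, fun i => by rw [h1, hc], h2, h3.trans hN, fun x => by rw [h4, hs]⟩

/-- a linear functional of a realised function is a coordinate of a network -/
theorem Rz.functional {W δ : ℕ} (hW : 1 ≤ W) {U : Submodule F V} (hf : FiniteDimensional F U)
    (hU : Module.finrank F U ≤ W) {c : ι → ℕ} {N : ℕ} {s : (ι → F) → V} (h : Rz W δ U c N s)
    (l : V →ₗ[F] F) :
    ∃ t : Net F ι W, (∀ i, t.cnt i = c i) ∧ LeafDeg δ t ∧ t.size ≤ N + 2 ∧
      ∀ x, t.val x ⟨0, hW⟩ = l (s x) := by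
  classical
  obtain ⟨L, hL, _⟩ := rz_exists_coord hf hU
  obtain ⟨t, h1, h2, h3, h4⟩ := h L hL
  refine ⟨Net.node (fun _ u v => if v = ⟨0, hW⟩ then l (L (Pi.single u 1)) else 0) t
    (Net.const fun _ => 1), ?_, ⟨h2, trivial⟩, ?_, ?_⟩
  · intro i
    show t.cnt i + 0 = _
    rw [add_zero, h1]
  · show t.size + 1 + 1 ≤ N + 2
    omega
  · intro x
    show ∑ u, ∑ v : Fin W, (if v = ⟨0, hW⟩ then l (L (Pi.single u 1)) else 0) * t.val x u * 1 = _
    rw [← h4 x, rz_lin L (t.val x), map_sum]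
    refine Finset.sum_congr rfl fun u _ => ?_
    rw [map_smul, smul_eq_mul]
    simp only [mul_one, ite_mul, zero_mul, Finset.sum_ite_eq', Finset.mem_univ, if_true]
    ring

end Pool.Agent.H2.TW
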