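import Pool.Agent.H2.TW.Fq
import Pool.Agent.H2.TW.Real

/-!
# Formulas are realised in `F × F` (module FqRz)

`x ↦ (1, f(x))`; sums: `(a, b), (c, d) ↦ (a c, a d + b c)`; products: `(a c, b d)`.
-/

namespace Pool.Agent.H2.TW

open Pool.Agent.H2.RK Matrix

variable {F : Type*} {ι : Type*} [Field F] [DecidableEq ι]

private noncomputable def bAdd (F : Type*) [Field F] : (F × F) →ₗ[F] (F × F) →ₗ[F] (F × F) :=
  LinearMap.mk₂ F (fun p q => (p.1 * q.1, p.1 * q.2 + p.2 * q.1))
    (by intro a b c; ext <;> simp <;> ring)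
    (by intro a b c; ext <;> simp <;> ring)
    (by intro a b c; ext <;> simp <;> ring)
    (by intro a b c; ext <;> simp <;> ring)

private noncomputable def bMul (F : Type*) [Field F] : (F × F) →ₗ[F] (F × F) →ₗ[F] (F × F) :=
  LinearMap.mk₂ F (fun p q => (p.1 * q.1, p.2 * q.2))
    (by intro a b c; ext <;> simp <;> ring)
    (by intro a b c; ext <;> simp <;> ring)
    (by intro a b c; ext <;> simp <;> ring)
    (by intro a b c; ext <;> simp <;> ring)

theorem Fq.rz {W δ : ℕ} (hW : 2 ≤ W) (f : Fq F ι) (hf : f.DegLe δ) :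
    Rz W δ (⊤ : Submodule F (F × F)) f.occ f.size (fun x => ((1 : F), f.eval x)) := by
  have hfr : Module.finrank F (⊤ : Submodule F (F × F)) ≤ W := by
    rw [finrank_top]
    simpa using hW
  induction f with
  | con c =>
    refine (Rz.const (ι := ι) W δ (U := (⊤ : Submodule F (F × F))) (u := ((1 : F), c))
      Submodule.mem_top).congr ?_ ?_ ?_
    · intro i; rfl
    · simp [Fq.size]
    · intro x; rfl
  | uni i p =>
    refine (Rz.leaf W δ (U := (⊤ : Submodule F (F × F))) (u₀ := ((1 : F), (0 : F)))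
      (u₁ := ((0 : F), (1 : F))) Submodule.mem_top Submodule.mem_top i p hf).congr ?_ ?_ ?_
    · intro j; rfl
    · simp [Fq.size]
    · intro x; simp [Fq.eval]
  | add f g ihf ihg =>
    refine (Rz.node (U₁ := (⊤ : Submodule F (F × F))) (U₂ := (⊤ : Submodule F (F × F)))
      (U := (⊤ : Submodule F (F × F))) inferInstance inferInstance hfr hfr (bAdd F)
      (fun _ _ _ _ => Submodule.mem_top) (ihf hf.1) (ihg hf.2)).congr ?_ ?_ ?_
    · intro j; rfl
    · simp [Fq.size]
    · intro x; simp [Fq.eval, bAdd, add_comm]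
  | mul f g ihf ihg =>
    refine (Rz.node (U₁ := (⊤ : Submodule F (F × F))) (U₂ := (⊤ : Submodule F (F × F)))
      (U := (⊤ : Submodule F (F × F))) inferInstance inferInstance hfr hfr (bMul F)
      (fun _ _ _ _ => Submodule.mem_top) (ihf hf.1) (ihg hf.2)).congr ?_ ?_ ?_
    · intro j; rfl
    · simp [Fq.size]
    · intro x; simp [Fq.eval, bMul]

end Pool.Agent.H2.TW
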