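import Pool.Agent.H2.RK.Grid

/-!
# Local maxima and determinants (module TopA)
-/

namespace Pool.Agent.H2.TW

open Pool.Agent.H2.RK Matrix

/-- `a` is a grid point without improvement: no grid point that differs from `a` in at most `R`
coordinates has a larger potential -/
def LocMax {F : Type} [Field F] {n W : ℕ} (t : Net F (Fin n) W) (r₀ : Fin W) (R : ℕ)
    (T : Finset F) (a : Fin n → F) : Prop :=
  (∀ i, a i ∈ T) ∧
    ∀ b : Fin n → F, (∀ i, b i ∈ T) → {i | b i ≠ a i}.ncard ≤ R → pot t r₀ b ≤ pot t r₀ a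

variable {F : Type} [Field F] [Infinite F] {n : ℕ}

/-- there is a grid point without improvement -/
theorem exists_locMax {W : ℕ} (t : Net F (Fin n) W) (r₀ : Fin W) (R : ℕ) (T : Finset F)
    (hT : T.Nonempty) : ∃ a, LocMax t r₀ R T a := by
  classical
  obtain ⟨c, hc⟩ := hT
  have hfin : {a : Fin n → F | ∀ i, a i ∈ T}.Finite := by
    have h := Set.Finite.pi (fun _ : Fin n => T.finite_toSet)
    refine h.subset fun a ha => ?_
    exact fun i _ => ha i
  obtain ⟨a, ha, hmax⟩ := Set.exists_max_image _ (fun a => pot t r₀ a) hfin ⟨fun _ => c, fun _ => hc⟩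
  exact ⟨a, ha, fun b hb _ => hmax b hb⟩

/-- one determinant (from `net_main`) -/
theorem det_locMax {W δ k : ℕ} {s : ℕ} (M : Matrix (Fin s) (Fin s) (MvPolynomial (Fin n) F))
    (t : Net F (Fin n) W) (r₀ : Fin W) (hk : ∀ i, t.cnt i ≤ k) (hδ : LeafDeg δ t)
    (hv : ∀ x, t.val x r₀ = (M.map (MvPolynomial.eval x)).det) (T : Finset F)
    (hT : k * δ * (W * t.size ^ 2 + 1) < T.card) (a : Fin n → F)
    (ha : LocMax t r₀ (RR W k) T a) : (M.map (MvPolynomial.eval a)).det = 0 ↔ M.det = 0 := by
  classical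
  have hev : ∀ x : Fin n → F, (M.map (MvPolynomial.eval x)).det = MvPolynomial.eval x M.det := by
    intro x
    rw [RingHom.map_det]
    rfl
  constructor
  · intro h0
    refine MvPolynomial.funext fun x => ?_
    rw [map_zero, ← hev, ← hv]
    refine (net_main k δ t r₀ hk hδ T hT a ha.1 ha.2 x).2 ?_
    rw [hv]
    exact h0
  · intro h0
    rw [hev, h0, map_zero]

end Pool.Agent.H2.TW
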