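import Pool.Agent.H2.TW.DetNet
import Pool.Agent.H2.TW.Border
import Pool.Agent.H2.TW.TopA

/-!
# Symbolic matrices of bounded treewidth with boundedly many occurrences (module TopB)

The network `t s f g` is `exists_detNet` for `A.submatrix f g` and `D.comap (sumMap f g)`.
The rank part: `rank_lt_iff_border` over the field of rational functions.
-/

namespace Pool.Agent.H2.TW

open Pool.Agent.H2.RK Matrix

/-- the rank over the field of rational functions -/
noncomputable def symRank {F : Type} [Field F] {m m' n : ℕ}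
    (M : Matrix (Fin m) (Fin m') (MvPolynomial (Fin n) F)) : ℕ :=
  (M.map (algebraMap _ (FractionRing (MvPolynomial (Fin n) F)))).rank

variable {F : Type} [Field F] [Infinite F] {n : ℕ}

/-- the networks of the minors -/
theorem exists_minorNet (w k δ S : ℕ) {m m' : ℕ} (A : Matrix (Fin m) (Fin m') (Fq F (Fin n)))
    (D : BT (Fin m ⊕ Fin m')) (hD : D.Valid) (hw : ∀ B ∈ D.bags, B.card ≤ w + 1)
    (hcov : ∀ i j, (A i j).poly ≠ 0 → ∃ B ∈ D.bags, Sum.inl i ∈ B ∧ Sum.inr j ∈ B)
    (hk : ∀ v, ∑ i, ∑ j, (A i j).occ v ≤ k) (hδ : ∀ i j, (A i j).DegLe δ)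
    (hS : D.size + (∑ i, ∑ j, ((A i j).size + 1)) + 2 ≤ S) (s : ℕ) (f : Fin s ↪ Fin m)
    (g : Fin s ↪ Fin m') :
    ∃ t : Net F (Fin n) (2 ^ (w + 1)), t.size ≤ S ∧ (∀ v, t.cnt v ≤ k) ∧ LeafDeg δ t ∧
      ∀ x, t.val x ⟨0, by positivity⟩ = ((evM A x).submatrix f g).det := by
  classical
  let e : (Fin s ⊕ Fin s) ↪ (Fin m ⊕ Fin m') := f.sumMap g
  have hle : ∀ c : Fq F (Fin n) → ℕ,
      ∑ p, ∑ q, c (A.submatrix f g p q) ≤ ∑ i, ∑ j, c (A i j) := by
    intro c
    calc ∑ p, ∑ q, c (A.submatrix f g p q) = ∑ p, ∑ q, c (A (f p) (g q)) := rfl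
      _ ≤ ∑ p, ∑ j, c (A (f p) j) := by
        refine Finset.sum_le_sum fun p _ => ?_
        have h := Finset.sum_map Finset.univ g (fun j => c (A (f p) j))
        rw [← h]
        exact Finset.sum_le_sum_of_subset (Finset.subset_univ _)
      _ ≤ ∑ i, ∑ j, c (A i j) := by
        have h := Finset.sum_map Finset.univ f (fun i => ∑ j, c (A i j))
        rw [← h]
        exact Finset.sum_le_sum_of_subset (Finset.subset_univ _)
  obtain ⟨t, h1, h2, h3, h4⟩ := exists_detNet (δ := δ) w (A.submatrix f g)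
    (fun i j => hδ (f i) (g j)) (D.comap e) (hD.comap e)
    (BT.card_bags_comap e hw) (by
      intro i j hij
      obtain ⟨B, hB, hi, hj⟩ := hcov (f i) (g j) hij
      refine ⟨B.preimage e e.injective.injOn, ?_, ?_, ?_⟩
      · rw [BT.bags_comap]
        exact List.mem_map_of_mem hB
      · rw [Finset.mem_preimage]
        exact hi
      · rw [Finset.mem_preimage]
        exact hj)
  refine ⟨t, ?_, fun v => ?_, h2, fun x => h4 x⟩
  · have := hle (fun q => q.size + 1)
    rw [BT.size_comap] at h3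
    omega
  · exact (h1 v).trans ((hle fun q => q.occ v).trans (hk v))

/-- the main theorem: symbolic matrices of formulas, bounded treewidth, every variable occurs at
most `k` times -/
theorem tw_main (w k δ S : ℕ) {m m' : ℕ} (A : Matrix (Fin m) (Fin m') (Fq F (Fin n)))
    (D : BT (Fin m ⊕ Fin m')) (hD : D.Valid) (hw : ∀ B ∈ D.bags, B.card ≤ w + 1)
    (hcov : ∀ i j, (A i j).poly ≠ 0 → ∃ B ∈ D.bags, Sum.inl i ∈ B ∧ Sum.inr j ∈ B)
    (hk : ∀ v, ∑ i, ∑ j, (A i j).occ v ≤ k) (hδ : ∀ i j, (A i j).DegLe δ)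
    (hS : D.size + (∑ i, ∑ j, ((A i j).size + 1)) + 2 ≤ S) (T : Finset F)
    (hT : k * δ * (2 ^ (w + 1) * S ^ 2 + 1) < T.card) :
    ∃ t : ∀ s : ℕ, (Fin s ↪ Fin m) → (Fin s ↪ Fin m') → Net F (Fin n) (2 ^ (w + 1)),
      (∀ s f g, (t s f g).size ≤ S ∧ (∀ v, (t s f g).cnt v ≤ k) ∧
        (∀ x, (t s f g).val x ⟨0, by positivity⟩ = ((evM A x).submatrix f g).det) ∧
        ∀ a, LocMax (t s f g) ⟨0, by positivity⟩ (RR (2 ^ (w + 1)) k) T a →
          (((evM A a).submatrix f g).det = 0 ↔ ((polyM A).submatrix f g).det = 0)) ∧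
      ∀ r, symRank (polyM A) < r ↔ ∃ s < r, ∃ (f : Fin s ↪ Fin m) (g : Fin s ↪ Fin m'),
        (∃ a : Fin n → F, ((evM A a).submatrix f g).det ≠ 0) ∧
        ∀ (f' : Fin (s + 1) ↪ Fin m) (g' : Fin (s + 1) ↪ Fin m'),
          (∀ i : Fin s, f' i.castSucc = f i) → (∀ i : Fin s, g' i.castSucc = g i) →
          ∃ a, LocMax (t (s + 1) f' g') ⟨0, by positivity⟩ (RR (2 ^ (w + 1)) k) T a ∧
            ((evM A a).submatrix f' g').det = 0 := by
  classical
  choose t ht1 ht2 ht3 ht4 using
    fun (s : ℕ) (f : Fin s ↪ Fin m) (g : Fin s ↪ Fin m') =>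
      exists_minorNet w k δ S A D hD hw hcov hk hδ hS s f g
  have hmap : ∀ (s : ℕ) (f : Fin s ↪ Fin m) (g : Fin s ↪ Fin m') (x : Fin n → F),
      ((polyM A).submatrix f g).map (MvPolynomial.eval x) = (evM A x).submatrix f g := by
    intro s f g x
    rw [evM_eq_map]
    rfl
  have hloc : ∀ (s : ℕ) (f : Fin s ↪ Fin m) (g : Fin s ↪ Fin m') (a : Fin n → F),
      LocMax (t s f g) ⟨0, by positivity⟩ (RR (2 ^ (w + 1)) k) T a →
      (((evM A a).submatrix f g).det = 0 ↔ ((polyM A).submatrix f g).det = 0) := by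
    intro s f g a ha
    have h := det_locMax ((polyM A).submatrix f g) (t s f g) ⟨0, by positivity⟩
      (ht2 s f g) (ht3 s f g)
      (fun x => by rw [ht4 s f g x, hmap]) T
      (lt_of_le_of_lt (Nat.mul_le_mul_left _ (Nat.add_le_add_right
        (Nat.mul_le_mul_left _ (Nat.pow_le_pow_left (ht1 s f g) 2)) 1)) hT) a ha
    rwa [hmap] at h
  have hTne : T.Nonempty := Finset.card_pos.mp (by omega)
  refine ⟨t, fun s f g => ⟨ht1 s f g, ht2 s f g, ht4 s f g, hloc s f g⟩, fun r => ?_⟩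
  have hdet : ∀ (s : ℕ) (f : Fin s ↪ Fin m) (g : Fin s ↪ Fin m'),
      (((polyM A).map (algebraMap _ (FractionRing (MvPolynomial (Fin n) F)))).submatrix
        f g).det = 0 ↔ ((polyM A).submatrix f g).det = 0 := by
    intro s f g
    have h1 : ((polyM A).map (algebraMap _
        (FractionRing (MvPolynomial (Fin n) F)))).submatrix f g =
        (algebraMap (MvPolynomial (Fin n) F)
          (FractionRing (MvPolynomial (Fin n) F))).mapMatrix ((polyM A).submatrix f g) := rfl
    rw [h1, ← RingHom.map_det]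
    exact IsFractionRing.to_map_eq_zero_iff
  have hex : ∀ (s : ℕ) (f : Fin s ↪ Fin m) (g : Fin s ↪ Fin m'),
      ((polyM A).submatrix f g).det ≠ 0 ↔
        ∃ a : Fin n → F, ((evM A a).submatrix f g).det ≠ 0 := by
    intro s f g
    have h2 : ∀ x : Fin n → F, MvPolynomial.eval x ((polyM A).submatrix f g).det =
        ((evM A x).submatrix f g).det := by
      intro x
      rw [RingHom.map_det, ← hmap]
      rfl
    constructor
    · intro h
      by_contra hcon
      push Not at hcon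
      apply h
      apply MvPolynomial.funext
      intro x
      rw [h2, hcon x, map_zero]
    · rintro ⟨a, ha⟩ h
      apply ha
      rw [← h2, h, map_zero]
  rw [symRank, rank_lt_iff_border]
  refine exists_congr fun s => and_congr_right fun _ => exists_congr fun f =>
    exists_congr fun g => and_congr ?_ ?_
  · rw [← hex, Ne, hdet]
  · refine forall_congr' fun f' => forall_congr' fun g' => forall_congr' fun _ =>
      forall_congr' fun _ => ?_
    rw [hdet]
    constructor
    · intro h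
      obtain ⟨a, ha⟩ := exists_locMax (t (s + 1) f' g') ⟨0, by positivity⟩
        (RR (2 ^ (w + 1)) k) T hTne
      exact ⟨a, ha, (hloc _ _ _ a ha).2 h⟩
    · rintro ⟨a, ha, h⟩
      exact (hloc _ _ _ a ha).1 h

end Pool.Agent.H2.TW
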