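import Pool.Agent.H2.TW.ZA

/-!
# The top coordinate, only the product of the rows counts (module TopcA)

`ZZ e M - ∏_i yy e i (M i)` is a combination of products missing an index `i`, i.e. lies in
the windows `Win ∅ (univ \ {e (inl i)})`, so has top coordinate `0`.
-/

namespace Pool.Agent.H2.TW

variable {F : Type*} [Field F] {α : Type*} [LinearOrder α] [Fintype α] {m : ℕ}

/-- the top coordinate -/
noncomputable def topc (F : Type*) [Field F] (α : Type*) [LinearOrder α] [Fintype α] :
    Ex F α →ₗ[F] F := (eb F α).coord Finset.univ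

theorem topc_of_mem {V : Finset α} (hV : V ≠ Finset.univ) {u : Ex F α} (hu : u ∈ Win F ∅ V) :
    topc F α u = 0 := by
  have hle : Win F ∅ V ≤ LinearMap.ker (topc F α) := by
    rw [Win, Submodule.span_le]
    rintro _ ⟨X, ⟨_, hXV⟩, rfl⟩
    rw [SetLike.mem_coe, LinearMap.mem_ker, topc, Module.Basis.coord_apply,
      Module.Basis.repr_self, Finsupp.single_apply, if_neg]
    rintro rfl
    exact hV (Finset.eq_univ_iff_forall.mpr fun a => hXV (Finset.mem_univ a))
  exact hle hu

/-- the product of the `yy e i (v i)` -/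
noncomputable def PY (e : Fin m ⊕ Fin m ≃ α) (M : Matrix (Fin m) (Fin m) F) : Ex F α :=
  ((List.finRange m).map fun i => yy e i (M i)).prod

theorem yy_mem_ne (e : Fin m ⊕ Fin m ≃ α) (i j : Fin m) (v : Fin m → F) (h : j ≠ i) :
    yy e j v ∈ Win F ∅ (Finset.univ.filter fun a => a ≠ e (Sum.inl i)) := by
  refine yy_mem e j v _ fun k _ => ?_
  simp only [Finset.mem_filter, Finset.mem_univ, true_and, ne_eq, EmbeddingLike.apply_eq_iff_eq,
    Sum.inl.injEq, reduceCtorEq, not_false_eq_true, and_true]
  exact h

theorem prod_mem_ne (e : Fin m ⊕ Fin m ≃ α) (M : Matrix (Fin m) (Fin m) F) (i : Fin m) :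
    ∀ l : List (Fin m), i ∉ l → (l.map fun j => 1 + yy e j (M j)).prod ∈
      Win F ∅ (Finset.univ.filter fun a => a ≠ e (Sum.inl i)) := by
  intro l
  induction l with
  | nil =>
    intro _
    simpa using one_mem_win (F := F) (Finset.univ.filter fun a => a ≠ e (Sum.inl i))
  | cons j l ih =>
    intro h
    rw [List.mem_cons, not_or] at h
    rw [List.map_cons, List.prod_cons]
    have h1 := win_mul (Submodule.add_mem _ (one_mem_win _) (yy_mem_ne e i j (M j) (Ne.symm h.1)))
      (ih h.2)
    rwa [Finset.union_idempotent] at h1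

theorem topc_aux (e : Fin m ⊕ Fin m ≃ α) (M : Matrix (Fin m) (Fin m) F) :
    ∀ l : List (Fin m), l.Nodup → ∀ u ∈ Win F ∅ (Finset.univ.filter fun a =>
      ∀ i ∈ l, a ≠ e (Sum.inl i)),
      topc F α (u * (l.map fun i => 1 + yy e i (M i)).prod) =
        topc F α (u * (l.map fun i => yy e i (M i)).prod) := by
  intro l
  induction l with
  | nil =>
    intro _ u _
    simp
  | cons i l ih =>
    intro hl u hu
    rw [List.nodup_cons] at hl
    rw [List.map_cons, List.prod_cons, List.map_cons, List.prod_cons, add_mul, one_mul, mul_add,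
      map_add, ← mul_assoc u (yy e i (M i)), ← mul_assoc u (yy e i (M i))]
    have h0 : topc F α (u * (l.map fun i => 1 + yy e i (M i)).prod) = 0 := by
      have hsub : (Finset.univ.filter fun a => ∀ k ∈ i :: l, a ≠ e (Sum.inl k)) ⊆
          (Finset.univ.filter fun a => a ≠ e (Sum.inl i)) := by
        intro a ha
        rw [Finset.mem_filter] at ha ⊢
        exact ⟨ha.1, ha.2 i List.mem_cons_self⟩
      have h1 := win_mul (win_mono (Finset.Subset.refl _) hsub hu) (prod_mem_ne e M i l hl.1)
      rw [Finset.union_idempotent] at h1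
      refine topc_of_mem ?_ h1
      intro h2
      have h3 := Finset.mem_univ (e (Sum.inl i))
      rw [← h2, Finset.mem_filter] at h3
      exact h3.2 rfl
    rw [h0, zero_add]
    refine ih hl.2 _ ?_
    have h4 : yy e i (M i) ∈ Win F ∅ (Finset.univ.filter fun a =>
        ∀ k ∈ l, a ≠ e (Sum.inl k)) := by
      refine yy_mem e i (M i) _ fun k _ => ?_
      simp only [Finset.mem_filter, Finset.mem_univ, true_and, ne_eq,
        EmbeddingLike.apply_eq_iff_eq, Sum.inl.injEq, reduceCtorEq, not_false_eq_true,
        implies_true, and_true]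
      intro k hk hki
      exact hl.1 (hki ▸ hk)
    have hsub : (Finset.univ.filter fun a => ∀ k ∈ i :: l, a ≠ e (Sum.inl k)) ⊆
        (Finset.univ.filter fun a => ∀ k ∈ l, a ≠ e (Sum.inl k)) := by
      intro a ha
      rw [Finset.mem_filter] at ha ⊢
      exact ⟨ha.1, fun k hk => ha.2 k (List.mem_cons_of_mem _ hk)⟩
    have h5 := win_mul (win_mono (Finset.Subset.refl _) hsub hu) h4
    rwa [Finset.union_idempotent] at h5

theorem topc_ZZ_eq (e : Fin m ⊕ Fin m ≃ α) (M : Matrix (Fin m) (Fin m) F) :
    topc F α (ZZ e M) = topc F α (PY e M) := by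
  have h := topc_aux e M (List.finRange m) (List.nodup_finRange m) 1 (one_mem_win _)
  rwa [one_mul, one_mul] at h

end Pool.Agent.H2.TW
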