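import Pool.Agent.H2.TW.TopcA

/-!
# The top coordinate is alternating in the rows (module TopcB)

`v ↦ top coordinate of ∏_i yy e i (v i)` is multilinear (`MultilinearMap.mkPiAlgebraFin` composed
with the linear maps `yy e i`, or by hand) and alternating (commuting factors, `yy_mul_vec`), so it
is a multiple of the determinant (`AlternatingMap.eq_smul_basis_det`, `Pi.basisFun_det` or
`Matrix.detRowAlternating`).
-/

namespace Pool.Agent.H2.TW

variable {F : Type*} [Field F] {α : Type*} [LinearOrder α] [Fintype α] {m : ℕ}

/-- the row element as a linear map -/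
private noncomputable def topcBY (e : Fin m ⊕ Fin m ≃ α) (i : Fin m) :
    (Fin m → F) →ₗ[F] Ex F α where
  toFun := yy e i
  map_add' := yy_add e i
  map_smul' := fun c v => yy_smul e i c v

/-- the top coordinate of the product of the rows, as a multilinear map -/
private noncomputable def topcBM (e : Fin m ⊕ Fin m ≃ α) :
    MultilinearMap F (fun _ : Fin m => (Fin m → F)) F :=
  (topc F α).compMultilinearMap
    ((MultilinearMap.mkPiAlgebraFin F m (Ex F α)).compLinearMap (topcBY e))

private theorem topcBM_apply (e : Fin m ⊕ Fin m ≃ α) (v : Fin m → Fin m → F) :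
    topcBM e v = topc F α ((List.finRange m).map fun i => yy e i (v i)).prod := by
  rw [topcBM, LinearMap.compMultilinearMap_apply, MultilinearMap.compLinearMap_apply,
    MultilinearMap.mkPiAlgebraFin_apply, List.ofFn_eq_map]
  rfl

private theorem topcB_erase {κ A : Type*} [DecidableEq κ] [Ring A] (f : κ → A)
    (hc : ∀ x y, f x * f y = f y * f x) (l : List κ) (a : κ) (ha : a ∈ l) :
    f a * ((l.erase a).map f).prod = (l.map f).prod := by
  induction l with
  | nil => simp at ha
  | cons b l ih =>
    by_cases hb : b = a
    · subst hb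
      rw [List.erase_cons_head, List.map_cons, List.prod_cons]
    · have ha' : a ∈ l := by
        rcases List.mem_cons.1 ha with h | h
        · exact absurd h.symm hb
        · exact h
      rw [List.erase_cons_tail (by simpa using hb), List.map_cons, List.prod_cons, List.map_cons,
        List.prod_cons, ← mul_assoc, hc a b, mul_assoc, ih ha']

private theorem topcB_zero (e : Fin m ⊕ Fin m ≃ α) (v : Fin m → Fin m → F) (i j : Fin m)
    (h : v i = v j) (hij : i ≠ j) :
    ((List.finRange m).map fun i => yy e i (v i)).prod = 0 := by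
  classical
  have hc : ∀ x y : Fin m, yy e x (v x) * yy e y (v y) = yy e y (v y) * yy e x (v x) :=
    fun x y => (yy_comm e x y (v x) (v y)).eq
  rw [← topcB_erase (fun i => yy e i (v i)) hc _ _ (List.mem_finRange i)]
  have hj : j ∈ (List.finRange m).erase i :=
    (List.mem_erase_of_ne hij.symm).2 (List.mem_finRange j)
  rw [← topcB_erase (fun i => yy e i (v i)) hc _ _ hj, ← mul_assoc]
  beta_reduce
  rw [← h, yy_mul_vec, zero_mul]

/-- the alternating map -/
private noncomputable def topcBA (e : Fin m ⊕ Fin m ≃ α) :
    (Fin m → F) [⋀^Fin m]→ₗ[F] F :=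
  { topcBM (F := F) e with
    map_eq_zero_of_eq' := by
      intro v i j h hij
      change topcBM e v = 0
      rw [topcBM_apply, topcB_zero e v i j h hij, map_zero] }

private theorem topcBA_apply (e : Fin m ⊕ Fin m ≃ α) (v : Fin m → Fin m → F) :
    topcBA e v = topc F α ((List.finRange m).map fun i => yy e i (v i)).prod :=
  topcBM_apply e v

theorem topc_PY_det (e : Fin m ⊕ Fin m ≃ α) (M : Matrix (Fin m) (Fin m) F) :
    topc F α (PY e M) = M.det * topc F α (PY e (1 : Matrix (Fin m) (Fin m) F)) := by
  have h1 := AlternatingMap.eq_smul_basis_det (Pi.basisFun F (Fin m)) (topcBA (F := F) e)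
  have h2 : topcBA e M = topcBA e (Pi.basisFun F (Fin m)) * M.det := by
    conv_lhs => rw [h1]
    rw [AlternatingMap.smul_apply, smul_eq_mul, Pi.basisFun_det]
    rfl
  have h3 : topcBA e (Pi.basisFun F (Fin m)) = topc F α (PY e (1 : Matrix (Fin m) (Fin m) F)) := by
    rw [topcBA_apply, PY]
    congr 2
    refine List.map_congr_left fun i _ => ?_
    congr 1
    funext j
    rw [Pi.basisFun_apply, Matrix.one_apply, Pi.single_apply]
    simp only [eq_comm]
  have h4 : topcBA e M = topc F α (PY e M) := topcBA_apply e M
  rw [← h4, h2, h3, mul_comm]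

end Pool.Agent.H2.TW
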