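import Pool.Agent.H2.TW.Ext

/-!
# Windows (module WinA)

`Win A V`: span of the monomials `eb X` with `A ⊆ X ⊆ V`; `prj A V`: the coordinate projection.
-/

namespace Pool.Agent.H2.TW

variable {F : Type*} [Field F] {α : Type*} [LinearOrder α] [Fintype α]

/-- span of the monomials between `A` and `V` -/
noncomputable def Win (F : Type*) [Field F] {α : Type*} [LinearOrder α] [Fintype α]
    (A V : Finset α) : Submodule F (Ex F α) :=
  Submodule.span F (eb F α '' {X | A ⊆ X ∧ X ⊆ V})

/-- the coordinate projection to the window -/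
noncomputable def prj (F : Type*) [Field F] {α : Type*} [LinearOrder α] [Fintype α]
    (A V : Finset α) : Ex F α →ₗ[F] Ex F α :=
  (eb F α).constr F fun X => if A ⊆ X ∧ X ⊆ V then eb F α X else 0

theorem prj_eb (A V X : Finset α) :
    prj F A V (eb F α X) = if A ⊆ X ∧ X ⊆ V then eb F α X else 0 := by
  rw [prj, Module.Basis.constr_basis]

theorem prj_mem (A V : Finset α) (u : Ex F α) : prj F A V u ∈ Win F A V := by
  have hu : u ∈ Submodule.span F (Set.range (eb F α)) := by
    rw [(eb F α).span_eq]; trivial
  induction hu using Submodule.span_induction with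
  | mem x hx =>
    obtain ⟨X, rfl⟩ := hx
    rw [prj_eb]
    split_ifs with h
    · exact Submodule.subset_span ⟨X, h, rfl⟩
    · exact Submodule.zero_mem _
  | zero => rw [map_zero]; exact Submodule.zero_mem _
  | add x y _ _ hx hy => rw [map_add]; exact Submodule.add_mem _ hx hy
  | smul c x _ hx => rw [map_smul]; exact Submodule.smul_mem _ _ hx

theorem prj_of_mem {A V : Finset α} {u : Ex F α} (h : u ∈ Win F A V) : prj F A V u = u := by
  induction h using Submodule.span_induction with
  | mem x hx =>
    obtain ⟨X, hX, rfl⟩ := hx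
    rw [prj_eb]
    exact if_pos hX
  | zero => rw [map_zero]
  | add x y _ _ hx hy => rw [map_add, hx, hy]
  | smul c x _ hx => rw [map_smul, hx]

theorem win_mono {A V A' V' : Finset α} (hA : A' ⊆ A) (hV : V ⊆ V') : Win F A V ≤ Win F A' V' := by
  apply Submodule.span_mono
  rintro _ ⟨X, hX, rfl⟩
  exact ⟨X, ⟨hA.trans hX.1, hX.2.trans hV⟩, rfl⟩

private theorem win_set_finite (A V : Finset α) :
    (eb F α '' {X | A ⊆ X ∧ X ⊆ V}).Finite := (Set.toFinite _).image _

theorem win_fd (A V : Finset α) : FiniteDimensional F (Win F A V) :=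
  FiniteDimensional.span_of_finite F (win_set_finite A V)

theorem win_finrank (A V : Finset α) : Module.finrank F (Win F A V) ≤ 2 ^ (V \ A).card := by
  classical
  have hset : (eb F α '' {X | A ⊆ X ∧ X ⊆ V}) ⊆
      ((((V \ A).powerset).image fun Y => eb F α (A ∪ Y) : Finset (Ex F α)) : Set (Ex F α)) := by
    rintro _ ⟨X, ⟨h1, h2⟩, rfl⟩
    simp only [Finset.coe_image, Set.mem_image, Finset.mem_coe, Finset.mem_powerset]
    refine ⟨X \ A, Finset.sdiff_subset_sdiff h2 le_rfl, ?_⟩
    rw [Finset.union_sdiff_of_subset h1]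
  calc Module.finrank F (Win F A V) ≤ Module.finrank F (Submodule.span F
        ((((V \ A).powerset).image fun Y => eb F α (A ∪ Y) : Finset (Ex F α)) : Set (Ex F α))) := by
        have : FiniteDimensional F (Submodule.span F
          ((((V \ A).powerset).image fun Y => eb F α (A ∪ Y) : Finset (Ex F α)) :
            Set (Ex F α))) := FiniteDimensional.span_finset F _
        exact Submodule.finrank_mono (Submodule.span_mono hset)
    _ ≤ (((V \ A).powerset).image fun Y => eb F α (A ∪ Y)).card := finrank_span_finset_le_card _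
    _ ≤ ((V \ A).powerset).card := Finset.card_image_le
    _ = 2 ^ (V \ A).card := Finset.card_powerset _

theorem one_mem_win (V : Finset α) : (1 : Ex F α) ∈ Win F ∅ V := by
  rw [← eb_empty]
  exact Submodule.subset_span ⟨∅, ⟨le_rfl, Finset.empty_subset _⟩, rfl⟩

end Pool.Agent.H2.TW
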