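import Pool.Agent.H2.TW.WinA

/-!
# Windows and products (module WinB)
-/

namespace Pool.Agent.H2.TW

variable {F : Type*} [Field F] {α : Type*} [LinearOrder α] [Fintype α]

theorem win_mul {V₁ V₂ : Finset α} {u v : Ex F α} (hu : u ∈ Win F ∅ V₁) (hv : v ∈ Win F ∅ V₂) :
    u * v ∈ Win F ∅ (V₁ ∪ V₂) := by
  have h := Submodule.mul_mem_mul hu hv
  unfold Win at h
  rw [Submodule.span_mul_span] at h
  refine (Submodule.span_le.2 ?_ : _ ≤ Win F ∅ (V₁ ∪ V₂)) h
  rintro _ ⟨_, ⟨S, hS, rfl⟩, _, ⟨T, hT, rfl⟩, rfl⟩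
  show eb F α S * eb F α T ∈ Win F ∅ (V₁ ∪ V₂)
  by_cases hd : Disjoint S T
  · obtain ⟨c, -, hc⟩ := eb_mul (F := F) hd
    rw [hc]
    exact Submodule.smul_mem _ _ (Submodule.subset_span
      ⟨S ∪ T, ⟨Finset.empty_subset _, Finset.union_subset_union hS.2 hT.2⟩, rfl⟩)
  · rw [eb_mul_zero hd]
    exact Submodule.zero_mem _

private theorem prj_mul_eb {A V A₁ V₁ A₂ V₂ : Finset α} (h₁ : A₁ ⊆ A) (h₁' : Disjoint A₁ V₂)
    (h₂ : A₂ ⊆ A) (h₂' : Disjoint A₂ V₁) {S T : Finset α} (hS : S ⊆ V₁) (hT : T ⊆ V₂) :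
    prj F A V (eb F α S * eb F α T) =
      prj F A V (prj F A₁ V₁ (eb F α S) * prj F A₂ V₂ (eb F α T)) := by
  by_cases hd : Disjoint S T
  · obtain ⟨c, -, hc⟩ := eb_mul (F := F) hd
    by_cases hA : A ⊆ S ∪ T
    · have hA₁ : A₁ ⊆ S := by
        intro x hx
        rcases Finset.mem_union.1 (hA (h₁ hx)) with h | h
        · exact h
        · exact absurd (hT h) (Finset.disjoint_left.1 h₁' hx)
      have hA₂ : A₂ ⊆ T := by
        intro x hx
        rcases Finset.mem_union.1 (hA (h₂ hx)) with h | h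
        · exact absurd (hS h) (Finset.disjoint_left.1 h₂' hx)
        · exact h
      rw [prj_eb, prj_eb, if_pos ⟨hA₁, hS⟩, if_pos ⟨hA₂, hT⟩]
    · have h0 : prj F A V (eb F α S * eb F α T) = 0 := by
        rw [hc, map_smul, prj_eb, if_neg (fun h => hA h.1), smul_zero]
      rw [h0, prj_eb, prj_eb]
      split_ifs
      · exact h0.symm
      · simp
      · simp
      · simp
  · have h0 := eb_mul_zero (F := F) hd
    rw [prj_eb, prj_eb]
    split_ifs
    · rfl
    · simp [h0]
    · simp [h0]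
    · simp [h0]

/-- the window lemma.  By bilinearity (`Submodule.span_induction₂`) check it on monomials `eb S`,
`eb T`, `S ⊆ V₁`, `T ⊆ V₂`: if `S, T` are disjoint and `A ⊆ S ∪ T` then `A₁ ⊆ S` and `A₂ ⊆ T`, so
both projections on the right are the identity; otherwise both sides vanish -/
theorem prj_mul {A V A₁ V₁ A₂ V₂ : Finset α} (h₁ : A₁ ⊆ A) (h₁' : Disjoint A₁ V₂) (h₂ : A₂ ⊆ A)
    (h₂' : Disjoint A₂ V₁) {u v : Ex F α} (hu : u ∈ Win F ∅ V₁) (hv : v ∈ Win F ∅ V₂) :
    prj F A V (u * v) = prj F A V (prj F A₁ V₁ u * prj F A₂ V₂ v) := by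
  unfold Win at hu hv
  induction hu using Submodule.span_induction with
  | mem x hx =>
    obtain ⟨S, hS, rfl⟩ := hx
    induction hv using Submodule.span_induction with
    | mem y hy =>
      obtain ⟨T, hT, rfl⟩ := hy
      exact prj_mul_eb h₁ h₁' h₂ h₂' hS.2 hT.2
    | zero => simp
    | add y z _ _ hy hz => simp only [mul_add, map_add, hy, hz]
    | smul c y _ hy => simp only [mul_smul_comm, map_smul, hy]
  | zero => simp
  | add x y _ _ hx hy => simp only [add_mul, map_add, hx, hy]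
  | smul c x _ hx => simp only [smul_mul_assoc, map_smul, hx]

/-- the coordinate of the full monomial is seen through every window, for elements supported in
`V` -/
theorem coord_univ_prj {A V : Finset α} {u : Ex F α} (hu : u ∈ Win F ∅ V) :
    (eb F α).coord Finset.univ (prj F A V u) = (eb F α).coord Finset.univ u := by
  unfold Win at hu
  induction hu using Submodule.span_induction with
  | mem x hx =>
    obtain ⟨S, hS, rfl⟩ := hx
    rw [prj_eb]
    split_ifs with h
    · rfl
    · have hne : S ≠ Finset.univ := by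
        rintro rfl
        exact h ⟨Finset.subset_univ _, hS.2⟩
      rw [map_zero, Module.Basis.coord_apply, Module.Basis.repr_self,
        Finsupp.single_eq_of_ne (Ne.symm hne)]
  | zero => simp
  | add x y _ _ hx hy => simp only [map_add, hx, hy]
  | smul c x _ hx => simp only [map_smul, hx]

end Pool.Agent.H2.TW
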