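import Pool.Agent.H2.TW.WinB

/-!
# The elements of the rows of a matrix in the exterior algebra (module ZY)

`e : Fin m ⊕ Fin m ≃ α` (rows and columns).  `yy e i v = ψ̄_i * Σ_j v_j ψ_j`.  The elements
`yy e i v` commute (they are even) and `yy e i u * yy e i v = 0`, as `ι a * ι a = 0`,
`ι a * ι b = - ι b * ι a` (`ExteriorAlgebra.ι_sq_zero`, `ExteriorAlgebra.ι_add_mul_swap`).
-/

namespace Pool.Agent.H2.TW

variable {F : Type*} [Field F] {α : Type*} [LinearOrder α] [Fintype α] {m : ℕ}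

/-- the vector of a row -/
noncomputable def rv (e : Fin m ⊕ Fin m ≃ α) (v : Fin m → F) : α → F :=
  ∑ j, v j • Pi.single (e (Sum.inr j)) (1 : F)

/-- `ψ̄_i * Σ_j v_j ψ_j` -/
noncomputable def yy (e : Fin m ⊕ Fin m ≃ α) (i : Fin m) (v : Fin m → F) : Ex F α :=
  ExteriorAlgebra.ι F (Pi.single (e (Sum.inl i)) (1 : F)) * ExteriorAlgebra.ι F (rv e v)

private theorem ii_swap (a b : α → F) :
    ExteriorAlgebra.ι F a * ExteriorAlgebra.ι F b =
      - (ExteriorAlgebra.ι F b * ExteriorAlgebra.ι F a) :=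
  eq_neg_of_add_eq_zero_left (ExteriorAlgebra.ι_add_mul_swap a b)

private theorem ii_even (a b : α → F) (x : α → F) :
    (ExteriorAlgebra.ι F a * ExteriorAlgebra.ι F b) * ExteriorAlgebra.ι F x =
      ExteriorAlgebra.ι F x * (ExteriorAlgebra.ι F a * ExteriorAlgebra.ι F b) := by
  rw [mul_assoc, ii_swap b x, mul_neg, ← mul_assoc, ii_swap a x, neg_mul, neg_neg, mul_assoc]

theorem yy_comm (e : Fin m ⊕ Fin m ≃ α) (i j : Fin m) (u v : Fin m → F) :
    Commute (yy e i u) (yy e j v) := by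
  show yy e i u * yy e j v = yy e j v * yy e i u
  unfold yy
  rw [← mul_assoc, ii_even, mul_assoc, ii_even, ← mul_assoc]

theorem yy_mul_same (e : Fin m ⊕ Fin m ≃ α) (i : Fin m) (u v : Fin m → F) :
    yy e i u * yy e i v = 0 := by
  unfold yy
  rw [← mul_assoc, ii_even, ← mul_assoc, ExteriorAlgebra.ι_sq_zero, zero_mul, zero_mul]

theorem yy_mul_vec (e : Fin m ⊕ Fin m ≃ α) (i j : Fin m) (v : Fin m → F) :
    yy e i v * yy e j v = 0 := by
  unfold yy
  rw [← mul_assoc, ii_even, mul_assoc, mul_assoc, ExteriorAlgebra.ι_sq_zero, mul_zero, mul_zero]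

theorem yy_add (e : Fin m ⊕ Fin m ≃ α) (i : Fin m) (u v : Fin m → F) :
    yy e i (u + v) = yy e i u + yy e i v := by
  have h : rv e (u + v) = rv e u + rv e v := by
    unfold rv
    rw [← Finset.sum_add_distrib]
    refine Finset.sum_congr rfl fun j _ => ?_
    rw [Pi.add_apply, add_smul]
  unfold yy
  rw [h, map_add, mul_add]

theorem yy_smul (e : Fin m ⊕ Fin m ≃ α) (i : Fin m) (c : F) (v : Fin m → F) :
    yy e i (c • v) = c • yy e i v := by
  have h : rv e (c • v) = c • rv e v := by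
    unfold rv
    rw [Finset.smul_sum]
    refine Finset.sum_congr rfl fun j _ => ?_
    rw [Pi.smul_apply, smul_eq_mul, mul_smul]
  unfold yy
  rw [h, map_smul, mul_smul_comm]

theorem yy_zero (e : Fin m ⊕ Fin m ≃ α) (i : Fin m) : yy e i (0 : Fin m → F) = 0 := by
  have h := yy_smul e i (0 : F) (0 : Fin m → F)
  rwa [zero_smul, zero_smul] at h

theorem yy_single (e : Fin m ⊕ Fin m ≃ α) (i j : Fin m) (c : F) :
    yy e i (Pi.single j c) = c • (ExteriorAlgebra.ι F (Pi.single (e (Sum.inl i)) (1 : F)) *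
      ExteriorAlgebra.ι F (Pi.single (e (Sum.inr j)) (1 : F))) := by
  have h : rv e (Pi.single j c) = c • (Pi.single (e (Sum.inr j)) (1 : F) : α → F) := by
    unfold rv
    rw [Finset.sum_eq_single j]
    · rw [Pi.single_eq_same]
    · intro k _ hk
      rw [Pi.single_eq_of_ne hk, zero_smul]
    · intro h
      exact absurd (Finset.mem_univ j) h
  unfold yy
  rw [h, map_smul, mul_smul_comm]

theorem yy_mem (e : Fin m ⊕ Fin m ≃ α) (i : Fin m) (v : Fin m → F) (V : Finset α)
    (hv : ∀ j, v j ≠ 0 → e (Sum.inl i) ∈ V ∧ e (Sum.inr j) ∈ V) : yy e i v ∈ Win F ∅ V := by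
  have hs : yy e i v = ∑ j, v j • (ExteriorAlgebra.ι F (Pi.single (e (Sum.inl i)) (1 : F)) *
      ExteriorAlgebra.ι F (Pi.single (e (Sum.inr j)) (1 : F))) := by
    unfold yy rv
    rw [map_sum, Finset.mul_sum]
    refine Finset.sum_congr rfl fun j _ => ?_
    rw [map_smul, mul_smul_comm]
  rw [hs]
  refine Submodule.sum_mem _ fun j _ => ?_
  by_cases h0 : v j = 0
  · rw [h0, zero_smul]
    exact Submodule.zero_mem _
  · obtain ⟨h1, h2⟩ := hv j h0
    refine Submodule.smul_mem _ _ ?_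
    rw [← eb_singleton, ← eb_singleton]
    have hd : Disjoint ({e (Sum.inl i)} : Finset α) {e (Sum.inr j)} := by
      rw [Finset.disjoint_singleton]
      intro h
      exact absurd (e.injective h) (by simp)
    obtain ⟨c, -, hc⟩ := eb_mul (F := F) hd
    rw [hc]
    refine Submodule.smul_mem _ _ (Submodule.subset_span ⟨_, ⟨Finset.empty_subset _, ?_⟩, rfl⟩)
    intro x hx
    rcases Finset.mem_union.1 hx with h | h
    · rw [Finset.mem_singleton.1 h]; exact h1
    · rw [Finset.mem_singleton.1 h]; exact h2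

end Pool.Agent.H2.TW
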